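import Pool.Agent.Q116.FF.Bs

/-!
The snark with its vertices replaced by complete graphs.
-/

set_option autoImplicit false

namespace Q116.FF

open Finset Pool.Agent.TH362.TF Pool.Agent.TH362

theorem not_isthmus {V E : Type} [Fintype V] [DecidableEq V] [Fintype E] [DecidableEq E]
    {s t : E → V} (h : N1 s t univ) : ∀ e, ¬ Multi.Isthmus s t e := by
  classical
  intro e he
  apply h (fun v => decide (Multi.Linked s t {e}ᶜ (s e) v))
  rw [card_eq_one]
  refine ⟨e, ?_⟩
  ext f
  unfold cut
  rw [mem_filter, mem_singleton]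
  constructor
  · rintro ⟨_, h1⟩
    by_contra hne
    apply h1
    have h2 : Multi.Linked s t {e}ᶜ (s e) (s f) ↔ Multi.Linked s t {e}ᶜ (s e) (t f) :=
      ⟨fun h3 => h3.tail ⟨f, hne, Or.inl ⟨rfl, rfl⟩⟩,
        fun h3 => h3.tail ⟨f, hne, Or.inr ⟨rfl, rfl⟩⟩⟩
    simp only [h2]
  · rintro rfl
    refine ⟨mem_univ _, ?_⟩
    show decide (Multi.Linked s t {f}ᶜ (s f) (s f)) ≠ decide (Multi.Linked s t {f}ᶜ (s f) (t f))
    rw [decide_eq_true (show Multi.Linked s t {f}ᶜ (s f) (s f) from Relation.ReflTransGen.refl),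
      decide_eq_false he]
    decide

abbrev Pr := {p : Finset (Fin 5) // p.card = 2}

theorem pr_deg : ∀ i : Pr, (univ.filter (fun j : Pr => Disjoint i.1 j.1)).card = 3 := by decide

theorem pr_card : Fintype.card Pr = 10 := by decide

theorem pr_irr : ∀ i : Pr, ¬ Disjoint i.1 i.1 := by decide

theorem petersen_classes {V E : Type} [Fintype V] [DecidableEq V] [Fintype E] [DecidableEq E]
    {s t : E → V} (h : Multi.ContractsToPetersen s t)
    (hconn : ∀ x : V → Bool, (cut s t univ x).card = 0 → (∀ v, x v = false) ∨ ∀ v, x v = true) :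
    ∃ x : Pr → V → Bool, (∀ i, (cut s t univ (x i)).card = 3) ∧ ∀ v, ∃! i, x i v = true := by
  classical
  obtain ⟨B, h1, h2, h3, h4⟩ := h
  have huniq : ∀ v i j, v ∈ B i → v ∈ B j → i = j := by
    intro v i j hi hj
    by_contra hne
    exact Set.disjoint_left.1 (h2 i j hne) hi hj
  refine ⟨fun i v => decide (v ∈ B i), fun i => ?_, fun v => ?_⟩
  · rw [← pr_deg i]
    obtain ⟨j0, hj0⟩ : (univ.filter (fun j : Pr => Disjoint i.1 j.1)).Nonempty := by
      rw [← card_pos, pr_deg i]; decide
    obtain ⟨e0, _⟩ := h3 i j0 (mem_filter.1 hj0).2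
    haveI : Nonempty E := ⟨e0⟩
    have h3' : ∀ j, Disjoint i.1 j.1 → ∃ e, ((s e ∈ B i ∧ t e ∈ B j) ∨ (s e ∈ B j ∧ t e ∈ B i)) ∧
        ∀ f, ((s f ∈ B i ∧ t f ∈ B j) ∨ (s f ∈ B j ∧ t f ∈ B i)) → f = e := fun j hj => h3 i j hj
    choose! g hg1 hg2 using h3'
    symm
    refine card_bij (fun j _ => g j) ?_ ?_ ?_
    · intro j hj
      rw [mem_filter] at hj
      have hij : i ≠ j := fun hc => pr_irr i (by rw [← hc] at hj; exact hj.2)
      unfold cut
      rw [mem_filter]
      refine ⟨mem_univ _, ?_⟩
      rcases hg1 j hj.2 with ⟨k1, k2⟩ | ⟨k1, k2⟩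
      · have : t (g j) ∉ B i := fun hc => hij (huniq _ _ _ hc k2)
        simp [k1, this]
      · have : s (g j) ∉ B i := fun hc => hij (huniq _ _ _ hc k1)
        simp [k2, this]
    · intro j hj j' hj' hjj
      rw [mem_filter] at hj hj'
      have hij : i ≠ j := fun hc => pr_irr i (by rw [← hc] at hj; exact hj.2)
      have hij' : i ≠ j' := fun hc => pr_irr i (by rw [← hc] at hj'; exact hj'.2)
      rcases hg1 j hj.2 with ⟨k1, k2⟩ | ⟨k1, k2⟩ <;> rcases hg1 j' hj'.2 with ⟨k3, k4⟩ | ⟨k3, k4⟩
      · rw [← hjj] at k4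
        exact huniq _ _ _ k2 k4
      · rw [← hjj] at k3 k4
        exact absurd (huniq _ _ _ k1 k3) hij'
      · rw [← hjj] at k3 k4
        exact absurd (huniq _ _ _ k2 k4) hij'
      · rw [← hjj] at k3
        exact huniq _ _ _ k1 k3
    · intro e he
      unfold cut at he
      rw [mem_filter] at he
      have he' : decide (s e ∈ B i) ≠ decide (t e ∈ B i) := he.2
      by_cases hs : s e ∈ B i
      · obtain ⟨j, hj, hij⟩ := (h4 e i).1 hs
        have htn : t e ∉ B i := by
          intro hc
          apply he'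
          rw [decide_eq_true hs, decide_eq_true hc]
        have hd : Disjoint i.1 j.1 := hij.resolve_left (fun hc => htn (hc ▸ hj))
        exact ⟨j, mem_filter.2 ⟨mem_univ _, hd⟩, (hg2 j hd e (Or.inl ⟨hs, hj⟩)).symm⟩
      · have ht : t e ∈ B i := by
          by_contra hc
          apply he'
          rw [decide_eq_false hs, decide_eq_false hc]
        obtain ⟨j, hj, hij⟩ := (h4 e i).2 ht
        have hd : Disjoint i.1 j.1 := hij.resolve_left (fun hc => hs (hc ▸ hj))
        exact ⟨j, mem_filter.2 ⟨mem_univ _, hd⟩, (hg2 j hd e (Or.inr ⟨hj, ht⟩)).symm⟩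
  · have h5 := hconn (fun v => decide (∃ i, v ∈ B i)) (by
      rw [card_eq_zero, eq_empty_iff_forall_notMem]
      intro e he
      unfold cut at he
      rw [mem_filter] at he
      apply he.2
      have h6 : (∃ i, s e ∈ B i) ↔ ∃ i, t e ∈ B i := by
        constructor
        · rintro ⟨i, hi⟩
          obtain ⟨j, hj, _⟩ := (h4 e i).1 hi
          exact ⟨j, hj⟩
        · rintro ⟨i, hi⟩
          obtain ⟨j, hj, _⟩ := (h4 e i).2 hi
          exact ⟨j, hj⟩
      simp only [h6])
    have h7 : ∃ i, v ∈ B i := by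
      rcases h5 with h5 | h5
      · obtain ⟨w, hw⟩ := (h1 ⟨{0, 1}, by decide⟩).1
        exact absurd (h5 w) (by rw [decide_eq_true ⟨_, hw⟩]; decide)
      · exact of_decide_eq_true (h5 v)
    obtain ⟨i, hi⟩ := h7
    exact ⟨i, decide_eq_true hi, fun j hj => huniq v j i (of_decide_eq_true hj) hi⟩

theorem no_classes (x : Pr → Fin 18 → Bool) (h1 : ∀ i, (cut es et univ (x i)).card = 3)
    (h2 : ∀ v, ∃! i, x i v = true) : False := by
  classical
  have hsum : ∑ i : Pr, (univ.filter (fun v => x i v = true)).card = 18 := by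
    have h3 : ∀ i, (univ.filter (fun v => x i v = true)).card =
        ∑ v : Fin 18, (if x i v = true then 1 else 0) := fun i => card_filter _ _
    rw [sum_congr rfl (fun i _ => h3 i), sum_comm]
    have h4 : ∀ v : Fin 18, ∑ i : Pr, (if x i v = true then 1 else 0) = 1 := by
      intro v
      obtain ⟨i, hi, hu⟩ := h2 v
      rw [sum_eq_single i]
      · rw [if_pos hi]
      · intro j _ hj
        rw [if_neg (fun h => hj (hu j h))]
      · intro h
        exact absurd (mem_univ _) h
    rw [sum_congr rfl (fun v _ => h4 v)]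
    simp
  have hval : ∀ i, (univ.filter (fun v => x i v = true)).card = 1 ∨
      (univ.filter (fun v => x i v = true)).card = 17 := fun i => (snark_cut (x i)).2.2 (h1 i)
  by_cases hex : ∃ i, (univ.filter (fun v => x i v = true)).card = 17
  · obtain ⟨i, hi⟩ := hex
    rw [← add_sum_erase _ _ (mem_univ i), hi] at hsum
    have h5 : (univ.erase i).card • 1 ≤
        ∑ j ∈ univ.erase i, (univ.filter (fun v => x j v = true)).card :=
      card_nsmul_le_sum _ _ _ fun j _ => by
        rcases hval j with h | h <;> omega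
    rw [card_erase_of_mem (mem_univ i), card_univ, pr_card] at h5
    simp only [smul_eq_mul, mul_one] at h5
    omega
  · push Not at hex
    rw [sum_congr rfl (fun i _ => (hval i).resolve_right (hex i))] at hsum
    rw [sum_const, card_univ, pr_card] at hsum
    simp at hsum

theorem snark_conn (x : Fin 18 → Bool) (h : (cut es et univ x).card = 0) :
    (∀ v, x v = false) ∨ ∀ v, x v = true := by
  rcases (snark_cut x).2.1 h with h1 | h1
  · left
    intro v
    rw [card_eq_zero, eq_empty_iff_forall_notMem] at h1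
    have := h1 v
    rw [mem_filter] at this
    by_contra hc
    exact this ⟨mem_univ _, by simpa using hc⟩
  · right
    intro v
    have h2 : univ.filter (fun i => x i = true) = univ :=
      eq_univ_of_card _ (by rw [h1]; rfl)
    exact (mem_filter.1 (show v ∈ univ.filter (fun i => x i = true) by
      rw [h2]; exact mem_univ v)).2

theorem snark_ncp : ¬ Multi.ContractsToPetersen es et := by
  intro h
  obtain ⟨x, h1, h2⟩ := petersen_classes h snark_conn
  exact no_classes x h1 h2

theorem snark_n1 : N1 es et univ := fun x => (snark_cut x).1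

/-! ### The blow-ups -/

abbrev BE (m : ℕ) := Fin 27 ⊕ (Fin 18 × {p : Fin m × Fin m // p.1 < p.2})

variable {m : ℕ} [NeZero m]

def bs : BE m → Fin 18 × Fin m
  | Sum.inl e => (es e, 0)
  | Sum.inr q => (q.1, q.2.1.1)

def bt : BE m → Fin 18 × Fin m
  | Sum.inl e => (et e, 0)
  | Sum.inr q => (q.1, q.2.1.2)

/-- the edge joining `(u, c)` and `(u, d)` -/
def mkE (u : Fin 18) (c d : Fin m) (h : c ≠ d) : BE m :=
  Sum.inr (u, ⟨(min c d, max c d), min_lt_max.2 h⟩)

omit [NeZero m] in
theorem mkE_ends [NeZero m] (u : Fin 18) (c d : Fin m) (h : c ≠ d) :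
    (bs (mkE u c d h) = (u, c) ∧ bt (mkE u c d h) = (u, d)) ∨
    (bs (mkE u c d h) = (u, d) ∧ bt (mkE u c d h) = (u, c)) := by
  unfold mkE bs bt
  rcases le_total c d with h1 | h1
  · left
    simp [h1]
  · right
    simp [h1]

theorem split_cut (x : Fin 18 × Fin m → Bool) (u : Fin 18) (a b : Fin m)
    (h : x (u, a) ≠ x (u, b)) : m - 1 ≤ (cut bs bt univ x).card := by
  classical
  have hab : a ≠ b := fun hc => h (by rw [hc])
  let g : Fin m → BE m := fun c =>
    if h1 : c = b then mkE u a b hab
    else if x (u, c) ≠ x (u, a) then (if h2 : c = a then mkE u a b hab else mkE u c a h2)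
      else mkE u c b h1
  have hends : ∀ c, c ≠ a → ∃ d, c ≠ d ∧ (d = a ∨ (d = b)) ∧ x (u, c) ≠ x (u, d) ∧
      ((bs (g c) = (u, c) ∧ bt (g c) = (u, d)) ∨ (bs (g c) = (u, d) ∧ bt (g c) = (u, c))) := by
    intro c hc
    by_cases h1 : c = b
    · subst h1
      refine ⟨a, hc, Or.inl rfl, h.symm, ?_⟩
      have hg : g c = mkE u a c hab := by simp only [g, dif_pos]
      rw [hg]
      exact (mkE_ends u a c hab).symm
    · by_cases h2 : x (u, c) ≠ x (u, a)
      · refine ⟨a, hc, Or.inl rfl, h2, ?_⟩
        have hg : g c = mkE u c a hc := by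
          simp only [g]
          rw [dif_neg h1, if_pos h2, dif_neg hc]
        rw [hg]
        exact mkE_ends u c a hc
      · refine ⟨b, h1, Or.inr rfl, ?_, ?_⟩
        · push Not at h2
          rw [h2]; exact h
        · have hg : g c = mkE u c b h1 := by
            simp only [g]
            rw [dif_neg h1, if_neg h2]
          rw [hg]
          exact mkE_ends u c b h1
  have h1 : (univ.erase a).card ≤ (cut bs bt univ x).card := by
    refine card_le_card_of_injOn g ?_ ?_
    · intro c hc
      rw [mem_coe, mem_erase] at hc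
      obtain ⟨d, _, _, hx, hd⟩ := hends c hc.1
      unfold cut
      rw [mem_coe, mem_filter]
      refine ⟨mem_univ _, ?_⟩
      rcases hd with ⟨k1, k2⟩ | ⟨k1, k2⟩
      · rw [k1, k2]; exact hx
      · rw [k1, k2]; exact hx.symm
    · intro c hc c' hc' heq
      rw [mem_coe, mem_erase] at hc hc'
      obtain ⟨d, hcd, hd0, hx, hd⟩ := hends c hc.1
      obtain ⟨d', hcd', hd0', hx', hd'⟩ := hends c' hc'.1
      have key : (c = c' ∧ d = d') ∨ (c = d' ∧ d = c') := by
        rw [← heq] at hd'
        rcases hd with ⟨k1, k2⟩ | ⟨k1, k2⟩ <;> rcases hd' with ⟨k3, k4⟩ | ⟨k3, k4⟩ <;>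
          rw [k1] at k3 <;> rw [k2] at k4 <;> simp only [Prod.mk.injEq, true_and] at k3 k4
        · exact Or.inl ⟨k3, k4⟩
        · exact Or.inr ⟨k3, k4⟩
        · exact Or.inr ⟨k4, k3⟩
        · exact Or.inl ⟨k4, k3⟩
      rcases key with ⟨k, _⟩ | ⟨k1, k2⟩
      · exact k
      · have e1 : c = b := by
          rcases hd0' with h5 | h5
          · exact absurd (k1.trans h5) hc.1
          · exact k1.trans h5
        have e2 : c' = b := by
          rcases hd0 with h5 | h5
          · exact absurd (k2.symm.trans h5) hc'.1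
          · exact k2.symm.trans h5
        rw [e1, e2]
  rw [card_erase_of_mem (mem_univ a), card_univ, Fintype.card_fin] at h1
  exact h1

theorem const_cut (x : Fin 18 × Fin m → Bool) (h : ∀ u a b, x (u, a) = x (u, b)) :
    (cut bs bt univ x).card = (cut es et univ (fun u => x (u, 0))).card := by
  symm
  refine card_bij (fun e _ => (Sum.inl e : BE m)) ?_ ?_ ?_
  · intro e he
    unfold cut at he ⊢
    rw [mem_filter] at he ⊢
    exact ⟨mem_univ _, he.2⟩
  · intro e _ e' _ h1
    exact Sum.inl_injective h1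
  · intro e he
    unfold cut at he ⊢
    rw [mem_filter] at he
    rcases e with e | q
    · exact ⟨e, mem_filter.2 ⟨mem_univ _, he.2⟩, rfl⟩
    · exact absurd (h q.1 q.2.1.1 q.2.1.2) he.2

/-- a cut with at most three edges does not split the complete graphs -/
theorem small_cut (hm : m = 1 ∨ 5 ≤ m) (x : Fin 18 × Fin m → Bool)
    (h : (cut bs bt univ x).card ≤ 3) : ∀ u a b, x (u, a) = x (u, b) := by
  intro u a b
  rcases hm with hm | hm
  · subst hm
    rw [Subsingleton.elim a b]
  · by_contra hc
    have := split_cut x u a b hc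
    omega

theorem blow_n1 (hm : m = 1 ∨ 5 ≤ m) : N1 (bs (m := m)) bt univ := by
  intro x hx
  rw [const_cut x (small_cut hm x (by omega))] at hx
  exact (snark_cut _).1 hx

theorem blow_conn (hm : m = 1 ∨ 5 ≤ m) (x : Fin 18 × Fin m → Bool)
    (h : (cut bs bt univ x).card = 0) : (∀ v, x v = false) ∨ ∀ v, x v = true := by
  have h1 := small_cut hm x (by omega)
  rw [const_cut x h1] at h
  rcases snark_conn _ h with h2 | h2
  · left
    rintro ⟨u, a⟩
    rw [h1 u a 0]; exact h2 u
  · right
    rintro ⟨u, a⟩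
    rw [h1 u a 0]; exact h2 u

theorem blow_ncp (hm : m = 1 ∨ 5 ≤ m) : ¬ Multi.ContractsToPetersen (bs (m := m)) bt := by
  intro h
  obtain ⟨x, h1, h2⟩ := petersen_classes h (blow_conn hm)
  refine no_classes (fun i u => x i (u, 0)) (fun i => ?_) (fun u => h2 (u, 0))
  rw [← const_cut (x i) (small_cut hm (x i) (by rw [h1 i]))]
  exact h1 i

theorem blow_nz : ¬ NZ (bs (m := m)) bt univ := by
  rintro ⟨φ, h1, h2⟩
  apply snark_nz
  refine ⟨fun e => φ (Sum.inl e), fun e _ => h1 _ (mem_univ _), fun u => ?_⟩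
  have h3 : ∑ j : Fin m, ∑ e ∈ (univ : Finset (BE m)), ((if bs e = (u, j) then φ e else 0) +
      (if bt e = (u, j) then φ e else 0)) = 0 := sum_eq_zero fun j _ => h2 (u, j)
  rw [sum_comm, Fintype.sum_sum_type] at h3
  have h4 : ∀ q : Fin 18 × {p : Fin m × Fin m // p.1 < p.2},
      ∑ j : Fin m, ((if bs (Sum.inr q : BE m) = (u, j) then φ (Sum.inr q) else 0) +
        (if bt (Sum.inr q : BE m) = (u, j) then φ (Sum.inr q) else 0)) = 0 := by
    intro q
    rw [sum_add_distrib]
    unfold bs bt
    simp only [Prod.mk.injEq]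
    by_cases hq : q.1 = u
    · simp only [hq, true_and, sum_ite_eq, mem_univ, if_true]
      exact addF _
    · simp only [hq, false_and, if_false, sum_const_zero, add_zero]
  have h5 : ∀ e : Fin 27, ∑ j : Fin m, ((if bs (Sum.inl e : BE m) = (u, j) then
      φ (Sum.inl e) else 0) + (if bt (Sum.inl e : BE m) = (u, j) then φ (Sum.inl e) else 0)) =
      (if es e = u then φ (Sum.inl e) else 0) + (if et e = u then φ (Sum.inl e) else 0) := by
    intro e
    rw [sum_add_distrib]
    unfold bs bt
    simp only [Prod.mk.injEq]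
    congr 1
    · by_cases hq : es e = u
      · simp only [hq, true_and, sum_ite_eq, mem_univ, if_true]
      · simp only [hq, false_and, if_false, sum_const_zero]
    · by_cases hq : et e = u
      · simp only [hq, true_and, sum_ite_eq, mem_univ, if_true]
      · simp only [hq, false_and, if_false, sum_const_zero]
  rw [sum_congr rfl (fun q _ => h4 q), sum_const_zero, add_zero,
    sum_congr rfl (fun e _ => h5 e)] at h3
  exact h3

theorem blow_nbr (v : Fin 18 × Fin m) : m - 1 ≤ (nbr bs bt univ v).card := by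
  classical
  obtain ⟨u, a⟩ := v
  have h1 : ((univ.erase a).image (fun c => (u, c))) ⊆ nbr bs bt univ (u, a) := by
    intro w hw
    obtain ⟨c, hc, rfl⟩ := mem_image.1 hw
    rw [mem_erase] at hc
    rw [mem_nbr]
    refine ⟨fun h => hc.1 (by simpa using h), mkE u a c hc.1.symm, mem_univ _, ?_⟩
    rcases mkE_ends u a c hc.1.symm with h | h
    · exact Or.inl h
    · exact Or.inr ⟨h.1, h.2⟩
  have h2 := card_le_card h1
  rw [card_image_of_injective _ (fun c d h => by simpa using h), card_erase_of_mem (mem_univ a),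
    card_univ, Fintype.card_fin] at h2
  exact h2

end Q116.FF
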