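import Pool.Agent.TH362.TF.Basic
import Mathlib.Data.Fin.VecNotation
import Mathlib.Algebra.BigOperators.Fin
import Mathlib.Data.Fintype.Basic

/-!
A snark with eighteen vertices (one of the two Blanusa snarks): its cuts, flows and independent
sets, by searches which the kernel evaluates.
-/

set_option autoImplicit false

namespace Q116.FF

open Finset Pool.Agent.TH362.TF

/-- the edges -/
def EL : List (ℕ × ℕ) := [(0, 1), (0, 2), (0, 3), (1, 4), (1, 5), (2, 6), (2, 7), (3, 8), (3, 9), (4, 8), (4, 10), (5, 6), (5, 11), (6, 8), (7, 12), (7, 13), (9, 10), (9, 14), (10, 15), (11, 12), (11, 16), (12, 17), (13, 14), (13, 16), (14, 17), (15, 16), (15, 17)]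

/-- the first ends -/
def es : Fin 27 → Fin 18 := ![0, 0, 0, 1, 1, 2, 2, 3, 3, 4, 4, 5, 5, 6, 7, 7, 9, 9, 10, 11, 11, 12, 13, 13, 14, 15, 15]

/-- the second ends -/
def et : Fin 27 → Fin 18 := ![1, 2, 3, 4, 5, 6, 7, 8, 9, 8, 10, 6, 11, 8, 12, 13, 10, 14, 15, 12, 16, 17, 14, 16, 17, 16, 17]

/-- the edges at the vertices -/
def VC : List (ℕ × ℕ × ℕ) := [(0, 1, 2), (0, 3, 4), (1, 5, 6), (2, 7, 8), (3, 9, 10), (4, 11, 12), (5, 11, 13), (6, 14, 15), (7, 9, 13), (8, 16, 17), (10, 16, 18), (12, 19, 20), (14, 19, 21), (15, 22, 23), (17, 22, 24), (18, 25, 26), (20, 23, 25), (21, 24, 26)]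

def i0 : Fin 18 → Fin 27 := ![0, 0, 1, 2, 3, 4, 5, 6, 7, 8, 10, 12, 14, 15, 17, 18, 20, 21]
def i1 : Fin 18 → Fin 27 := ![1, 3, 5, 7, 9, 11, 11, 14, 9, 16, 16, 19, 19, 22, 22, 25, 23, 24]
def i2 : Fin 18 → Fin 27 := ![2, 4, 6, 8, 10, 12, 13, 15, 13, 17, 18, 20, 21, 23, 24, 26, 25, 26]

theorem EL_eq : EL = List.ofFn (fun i => ((es i : ℕ), (et i : ℕ))) := by decide

theorem VC_eq : VC = List.ofFn (fun i => ((i0 i : ℕ), (i1 i : ℕ), (i2 i : ℕ))) := by decide

/-- the search: `true` if no assignment passes all tests -/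
def go {C : Type} (vals : List C) (test : ℕ → List C → Bool) : ℕ → ℕ → List C → Bool
  | 0, _, _ => false
  | n + 1, k, acc => vals.all (fun c => !(test k (c :: acc)) || go vals test n (k + 1) (c :: acc))

/-- the first `k` values, the last one first -/
def pre {C : Type} (x : ℕ → C) : ℕ → List C
  | 0 => []
  | k + 1 => x k :: pre x k

theorem go_false {C : Type} (vals : List C) (test : ℕ → List C → Bool) (x : ℕ → C) (N : ℕ)
    (hx : ∀ k < N, x k ∈ vals) (ht : ∀ k < N, test k (pre x (k + 1)) = true) :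
    ∀ n k, k + n = N → go vals test n k (pre x k) = false := by
  intro n
  induction n with
  | zero => intro k _; rfl
  | succ n ih =>
    intro k hk
    by_contra h
    rw [Bool.not_eq_false] at h
    unfold go at h
    rw [List.all_eq_true] at h
    have h1 := h (x k) (hx k (by omega))
    have h2 : test k (x k :: pre x k) = true := ht k (by omega)
    have h3 : go vals test n (k + 1) (x k :: pre x k) = false := ih (k + 1) (by omega)
    rw [h2, h3] at h1
    exact absurd h1 (by decide)

theorem pre_getD {C : Type} (x : ℕ → C) (d : C) : ∀ k j, j ≤ k →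
    (pre x (k + 1)).getD (k - j) d = x j := by
  intro k
  induction k with
  | zero =>
    intro j hj
    have : j = 0 := by omega
    subst this
    rfl
  | succ k ih =>
    intro j hj
    rcases Nat.eq_or_lt_of_le hj with h | h
    · subst h
      rw [Nat.sub_self]
      rfl
    · have h1 : k + 1 - j = (k - j) + 1 := by omega
      rw [h1]
      exact ih j (by omega)

/-- the test for cuts -/
def tcut (k : ℕ) (acc : List Bool) : Bool :=
  (fun c => bif Nat.beq k 17 then
      (fun p => (Nat.beq c 0 && (!(Nat.beq p 0) && !(Nat.beq p 18))) || (Nat.beq c 1 ||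
        (Nat.beq c 3 && (!(Nat.beq p 1) && !(Nat.beq p 17))))) (acc.countP id)
    else Nat.ble c 3)
    (EL.countP (fun e => Nat.ble e.2 k &&
      (Bool.xor (acc.getD (k - e.1) false) (acc.getD (k - e.2) false))))

theorem cut_search : go [false, true] tcut 18 0 [] = true := by decide +kernel

/-- the test for colourings -/
def tcol (k : ℕ) (acc : List ℕ) : Bool :=
  VC.all (fun c => !(Nat.beq c.2.2 k) ||
    Nat.beq (Nat.xor (Nat.xor (acc.getD 0 0) (acc.getD (k - c.1) 0)) (acc.getD (k - c.2.1) 0)) 0)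

theorem col_search : go [1, 2, 3] tcol 27 0 [] = true := by decide +kernel

/-- the test for independent sets -/
def tal (k : ℕ) (acc : List Bool) : Bool :=
  (!(acc.getD 0 false) || EL.all (fun e => !(Nat.beq e.2 k) || !(acc.getD (k - e.1) false))) &&
    Nat.ble 8 (acc.countP id + (17 - k))

theorem al_search : go [false, true] tal 18 0 [] = true := by decide +kernel

end Q116.FF
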