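import Mathlib.Combinatorics.SimpleGraph.Basic
import Mathlib.Data.ZMod.Basic
import Mathlib.Algebra.BigOperators.Group.Finset.Basic
import Mathlib.Algebra.BigOperators.Ring.Finset
import Mathlib.Algebra.Order.BigOperators.Group.Finset
import Mathlib.Tactic.Linarith
import Mathlib.Tactic.Ring

/-!
Graphs of girth at least five with small independence number.
-/

set_option autoImplicit false

namespace Q116.FF

open Finset

variable {V : Type} [DecidableEq V]

/-- no triangles and no circuits of length four -/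
structure Girth5 (H : SimpleGraph V) : Prop where
  tri : ∀ a b c, H.Adj a b → H.Adj b c → H.Adj c a → False
  quad : ∀ a b c d, a ≠ c → b ≠ d → H.Adj a b → H.Adj b c → H.Adj c d → H.Adj d a → False

/-- every independent subset of `A` has at most `k` elements -/
def Al (H : SimpleGraph V) (A : Finset V) (k : ℕ) : Prop :=
  ∀ I ⊆ A, (∀ u ∈ I, ∀ v ∈ I, ¬ H.Adj u v) → I.card ≤ k

open Classical in
/-- the neighbours of `v` in `A` -/
noncomputable def nb (H : SimpleGraph V) (A : Finset V) (v : V) : Finset V :=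
  A.filter (fun u => H.Adj v u)

theorem mem_nb {H : SimpleGraph V} {A : Finset V} {u v : V} : u ∈ nb H A v ↔ u ∈ A ∧ H.Adj v u := by
  classical
  unfold nb
  rw [mem_filter]

open Classical in
/-- the vertices of `A` which are neither `v` nor adjacent to `v` -/
noncomputable def far (H : SimpleGraph V) (A : Finset V) (v : V) : Finset V :=
  A.filter (fun u => u ≠ v ∧ ¬ H.Adj v u)

theorem mem_far {H : SimpleGraph V} {A : Finset V} {u v : V} :
    u ∈ far H A v ↔ u ∈ A ∧ u ≠ v ∧ ¬ H.Adj v u := by
  classical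
  unfold far
  rw [mem_filter]

variable {H : SimpleGraph V}

theorem Al.mono {A B : Finset V} {k : ℕ} (h : Al H A k) (hB : B ⊆ A) : Al H B k :=
  fun I hI h1 => h I (hI.trans hB) h1

theorem Al.far {A : Finset V} {k : ℕ} (h : Al H A (k + 1)) {v : V} (hv : v ∈ A) :
    Al H (far H A v) k := by
  intro I hI h1
  have hvI : v ∉ I := fun hc => (mem_far.1 (hI hc)).2.1 rfl
  have h2 := h (insert v I) (by
    intro x hx
    rcases mem_insert.1 hx with rfl | hx
    · exact hv
    · exact (mem_far.1 (hI hx)).1) (by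
    intro x hx y hy
    rcases mem_insert.1 hx with hx' | hx' <;> rcases mem_insert.1 hy with hy' | hy'
    · rw [hx', hy']; exact H.loopless.irrefl _
    · rw [hx']; exact (mem_far.1 (hI hy')).2.2
    · rw [hy']; exact fun hc => (mem_far.1 (hI hx')).2.2 hc.symm
    · exact h1 x hx' y hy')
  rw [card_insert_of_notMem hvI] at h2
  omega

theorem card_eq {A : Finset V} {v : V} (hv : v ∈ A) :
    A.card = 1 + (nb H A v).card + (far H A v).card := by
  classical
  have h1 : A = insert v (nb H A v ∪ far H A v) := by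
    ext u
    rw [mem_insert, mem_union, mem_nb, mem_far]
    constructor
    · intro hu
      by_cases h2 : u = v
      · exact Or.inl h2
      · by_cases h3 : H.Adj v u
        · exact Or.inr (Or.inl ⟨hu, h3⟩)
        · exact Or.inr (Or.inr ⟨hu, h2, h3⟩)
    · rintro (rfl | h2 | h2)
      · exact hv
      · exact h2.1
      · exact h2.1
  have h2 : v ∉ nb H A v ∪ far H A v := by
    rw [mem_union, mem_nb, mem_far]
    rintro (h3 | h3)
    · exact H.loopless.irrefl _ h3.2
    · exact h3.2.1 rfl
  have h3 : Disjoint (nb H A v) (far H A v) := by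
    rw [Finset.disjoint_left]
    intro u hu hu'
    exact (mem_far.1 hu').2.2 (mem_nb.1 hu).2
  conv_lhs => rw [h1]
  rw [card_insert_of_notMem h2, card_union_of_disjoint h3]
  omega

theorem nb_le (hG : Girth5 H) {A : Finset V} {k : ℕ} (h : Al H A k) (v : V) :
    (nb H A v).card ≤ k := by
  refine h _ (fun u hu => (mem_nb.1 hu).1) (fun x hx y hy hxy => ?_)
  exact hG.tri v x y (mem_nb.1 hx).2 hxy (mem_nb.1 hy).2.symm

theorem moore (hG : Girth5 H) {A : Finset V} {v : V} (hv : v ∈ A) :
    1 + ∑ u ∈ nb H A v, (nb H A u).card ≤ A.card := by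
  classical
  set W := (nb H A v).biUnion (fun u => (nb H A u).erase v) with hW
  have hWc : W.card = ∑ u ∈ nb H A v, ((nb H A u).erase v).card := by
    refine card_biUnion ?_
    intro x hx y hy hxy
    rw [Function.onFun, Finset.disjoint_left]
    intro z hz hz'
    rw [mem_erase, mem_nb] at hz hz'
    exact hG.quad v x z y hz.1.symm hxy (mem_nb.1 hx).2 hz.2.2 hz'.2.2.symm (mem_nb.1 hy).2.symm
  have hsum : ∑ u ∈ nb H A v, (nb H A u).card = W.card + (nb H A v).card := by
    rw [hWc, card_eq_sum_ones, ← sum_add_distrib]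
    refine sum_congr rfl fun u hu => ?_
    rw [card_erase_of_mem (mem_nb.2 ⟨hv, (mem_nb.1 hu).2.symm⟩)]
    have : 0 < (nb H A u).card := card_pos.2 ⟨v, mem_nb.2 ⟨hv, (mem_nb.1 hu).2.symm⟩⟩
    omega
  have hd : Disjoint W (nb H A v) := by
    rw [Finset.disjoint_left]
    intro z hz hz'
    rw [hW, mem_biUnion] at hz
    obtain ⟨x, hx, hz⟩ := hz
    rw [mem_erase, mem_nb] at hz
    exact hG.tri v x z (mem_nb.1 hx).2 hz.2.2 (mem_nb.1 hz').2.symm
  have hvn : v ∉ W ∪ nb H A v := by
    rw [mem_union]
    rintro (h | h)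
    · rw [hW, mem_biUnion] at h
      obtain ⟨x, _, h⟩ := h
      exact (mem_erase.1 h).1 rfl
    · exact H.loopless.irrefl _ (mem_nb.1 h).2
  have hsub : insert v (W ∪ nb H A v) ⊆ A := by
    intro z hz
    rw [mem_insert, mem_union] at hz
    rcases hz with rfl | hz | hz
    · exact hv
    · rw [hW, mem_biUnion] at hz
      obtain ⟨x, _, hz⟩ := hz
      exact (mem_nb.1 (mem_erase.1 hz).2).1
    · exact (mem_nb.1 hz).1
  have h1 := card_le_card hsub
  rw [card_insert_of_notMem hvn, card_union_of_disjoint hd] at h1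
  omega

/-- the number of vertices is at least one plus the product of the degree and the least degree -/
theorem moore_min (hG : Girth5 H) {A : Finset V} {v : V} (hv : v ∈ A) {m : ℕ}
    (hm : ∀ u ∈ A, m ≤ (nb H A u).card) : 1 + (nb H A v).card * m ≤ A.card := by
  refine le_trans ?_ (moore hG hv)
  have h1 : (nb H A v).card • m ≤ ∑ u ∈ nb H A v, (nb H A u).card :=
    card_nsmul_le_sum _ _ _ fun u hu => hm u (mem_nb.1 hu).1
  rw [smul_eq_mul] at h1
  omega

theorem handshake (H : SimpleGraph V) (A : Finset V) : Even (∑ v ∈ A, (nb H A v).card) := by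
  classical
  rw [← ZMod.natCast_eq_zero_iff_even]
  have h1 : ((∑ v ∈ A, (nb H A v).card : ℕ) : ZMod 2) =
      ∑ p ∈ A ×ˢ A, (if H.Adj p.1 p.2 then (1 : ZMod 2) else 0) := by
    rw [sum_product]
    push_cast
    refine sum_congr rfl fun v _ => ?_
    unfold nb
    rw [card_filter]
    push_cast
    rfl
  rw [h1]
  refine Finset.sum_involution (fun p _ => (p.2, p.1)) ?_ ?_ ?_ ?_
  · intro p _
    by_cases h2 : H.Adj p.1 p.2
    · rw [if_pos h2, if_pos h2.symm]; decide
    · rw [if_neg h2, if_neg (fun h3 => h2 h3.symm)]; decide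
  · intro p _ h2 h3
    have h4 : H.Adj p.1 p.2 := by
      by_contra h5
      exact h2 (if_neg h5)
    have h5 : p.2 = p.1 := congrArg Prod.fst h3
    rw [h5] at h4
    exact H.loopless.irrefl _ h4
  · intro p hp
    rw [mem_product] at hp ⊢
    exact ⟨hp.2, hp.1⟩
  · intro p _
    rfl

theorem bd1 (hG : Girth5 H) {A : Finset V} (h : Al H A 1) : A.card ≤ 2 := by
  by_contra hc
  push Not at hc
  obtain ⟨a, ha, b, hb, c, hc', hab, hac, hbc⟩ := two_lt_card.1 hc
  have key : ∀ x ∈ A, ∀ y ∈ A, x ≠ y → H.Adj x y := by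
    intro x hx y hy hxy
    by_contra hn
    have := h {x, y} (by
      intro z hz
      rcases mem_insert.1 hz with rfl | hz
      · exact hx
      · rw [mem_singleton.1 hz]; exact hy) (by
      intro u hu v hv
      rw [mem_insert, mem_singleton] at hu hv
      rcases hu with rfl | rfl <;> rcases hv with rfl | rfl
      · exact H.loopless.irrefl _
      · exact hn
      · exact fun h' => hn h'.symm
      · exact H.loopless.irrefl _)
    rw [card_pair hxy] at this
    omega
  exact hG.tri a b c (key a ha b hb hab) (key b hb c hc' hbc) (key c hc' a ha hac.symm)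

theorem bd2 (hG : Girth5 H) {A : Finset V} (h : Al H A 2) : A.card ≤ 5 := by
  rcases A.eq_empty_or_nonempty with rfl | ⟨v, hv⟩
  · simp
  have h1 := card_eq (H := H) hv
  have h2 := bd1 hG (h.far hv)
  have h3 := nb_le hG h v
  omega

theorem bd3 (hG : Girth5 H) {A : Finset V} (h : Al H A 3) : A.card ≤ 7 := by
  by_contra hc
  obtain ⟨A', hA', hcard⟩ := exists_subset_card_eq (show 8 ≤ A.card by omega)
  replace h := h.mono hA'
  clear hA' hc
  have hd : ∀ v ∈ A', 2 ≤ (nb H A' v).card := by
    intro v hv
    have h1 := card_eq (H := H) hv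
    have h2 := bd2 hG (h.far hv)
    omega
  obtain ⟨v, hv, hv2⟩ : ∃ v ∈ A', (nb H A' v).card = 2 := by
    by_contra hn
    push Not at hn
    obtain ⟨v, hv⟩ : A'.Nonempty := by rw [← card_pos]; omega
    have h1 := moore_min hG hv (m := 3) (fun u hu => by
      have := hd u hu
      have := hn u hu
      omega)
    have := hd v hv
    have := hn v hv
    have : 3 ≤ (nb H A' v).card := by omega
    nlinarith
  obtain ⟨a, b, hab, hnb⟩ := card_eq_two.1 hv2
  have hB := h.far hv
  have hBc : (far H A' v).card = 5 := by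
    have := card_eq (H := H) hv
    omega
  set B := far H A' v with hBdef
  have ha : a ∈ A' ∧ H.Adj v a := mem_nb.1 (hnb ▸ mem_insert_self a _)
  have hb : b ∈ A' ∧ H.Adj v b := mem_nb.1 (hnb ▸ mem_insert_of_mem (mem_singleton_self b))
  have hdB : ∀ w ∈ B, 2 ≤ (nb H B w).card := by
    intro w hw
    have h1 := card_eq (H := H) hw
    have h2 := bd1 hG (hB.far hw)
    omega
  have one : ∀ c, c ∉ B → (nb H B c).card ≤ 1 := by
    intro c hcB
    by_contra hn
    push Not at hn
    obtain ⟨x, hx, y, hy, hxy⟩ := one_lt_card.1 hn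
    rw [mem_nb] at hx hy
    have hxy' : ¬ H.Adj x y := fun h' => hG.tri c x y hx.2 h' hy.2.symm
    have h1 : nb H B x ⊆ (B.erase x).erase y := by
      intro z hz
      rw [mem_nb] at hz
      rw [mem_erase, mem_erase]
      exact ⟨fun h' => hxy' (h' ▸ hz.2), fun h' => H.loopless.irrefl x (h' ▸ hz.2), hz.1⟩
    have h2 : nb H B y ⊆ (B.erase x).erase y := by
      intro z hz
      rw [mem_nb] at hz
      rw [mem_erase, mem_erase]
      exact ⟨fun h' => H.loopless.irrefl y (h' ▸ hz.2), fun h' => hxy' (h' ▸ hz.2).symm, hz.1⟩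
    have h3 : ((B.erase x).erase y).card = 3 := by
      rw [card_erase_of_mem (mem_erase.2 ⟨hxy.symm, hy.1⟩), card_erase_of_mem hx.1, hBc]
    have h4 : (nb H B x ∩ nb H B y).Nonempty := by
      rw [← card_pos]
      have h5 := card_union_add_card_inter (nb H B x) (nb H B y)
      have h6 := card_le_card (union_subset h1 h2)
      have := hdB x hx.1
      have := hdB y hy.1
      omega
    obtain ⟨z, hz⟩ := h4
    rw [mem_inter, mem_nb, mem_nb] at hz
    exact hG.quad c x z y (fun h' => hcB (h' ▸ hz.1.1)) hxy hx.2 hz.1.2 hz.2.2.symm hy.2.symm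
  have haB : a ∉ B := fun h' => (mem_far.1 h').2.2 ha.2
  have hbB : b ∉ B := fun h' => (mem_far.1 h').2.2 hb.2
  have h1 := one a haB
  have h2 := one b hbB
  set D := B \ (nb H B a ∪ nb H B b) with hD
  have hDc : 2 < D.card := by
    rw [hD]
    have h3 := card_union_le (nb H B a) (nb H B b)
    have h4 := le_card_sdiff (nb H B a ∪ nb H B b) B
    omega
  obtain ⟨x, hx, y, hy, z, hz, hxy, hxz, hyz⟩ := two_lt_card.1 hDc
  have hDm : ∀ w ∈ D, w ∈ B ∧ ¬ H.Adj a w ∧ ¬ H.Adj b w := by
    intro w hw
    rw [hD, mem_sdiff, mem_union, mem_nb, mem_nb] at hw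
    exact ⟨hw.1, fun h' => hw.2 (Or.inl ⟨hw.1, h'⟩), fun h' => hw.2 (Or.inr ⟨hw.1, h'⟩)⟩
  have fin : ∀ p ∈ D, ∀ q ∈ D, p ≠ q → ¬ H.Adj p q → False := by
    intro p hp q hq hpq hn
    obtain ⟨hpB, hpa, hpb⟩ := hDm p hp
    obtain ⟨hqB, hqa, hqb⟩ := hDm q hq
    have nab : ¬ H.Adj a b := fun h' => hG.tri v a b ha.2 h' hb.2.symm
    have h5 := h {a, b, p, q} (by
      intro w hw
      simp only [mem_insert, mem_singleton] at hw
      rcases hw with rfl | rfl | rfl | rfl
      · exact ha.1
      · exact hb.1
      · exact (mem_far.1 hpB).1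
      · exact (mem_far.1 hqB).1) (by
      intro u hu w hw
      simp only [mem_insert, mem_singleton] at hu hw
      rcases hu with rfl | rfl | rfl | rfl <;> rcases hw with rfl | rfl | rfl | rfl
      · exact H.loopless.irrefl _
      · exact nab
      · exact hpa
      · exact hqa
      · exact fun h' => nab h'.symm
      · exact H.loopless.irrefl _
      · exact hpb
      · exact hqb
      · exact fun h' => hpa h'.symm
      · exact fun h' => hpb h'.symm
      · exact H.loopless.irrefl _
      · exact hn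
      · exact fun h' => hqa h'.symm
      · exact fun h' => hqb h'.symm
      · exact fun h' => hn h'.symm
      · exact H.loopless.irrefl _)
    have e1 : a ≠ p := fun h' => haB (h' ▸ hpB)
    have e2 : a ≠ q := fun h' => haB (h' ▸ hqB)
    have e3 : b ≠ p := fun h' => hbB (h' ▸ hpB)
    have e4 : b ≠ q := fun h' => hbB (h' ▸ hqB)
    rw [card_insert_of_notMem (by simp [hab, e1, e2]), card_insert_of_notMem (by simp [e3, e4]),
      card_pair hpq] at h5
    omega
  by_cases k1 : H.Adj x y
  · by_cases k2 : H.Adj y z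
    · by_cases k3 : H.Adj z x
      · exact hG.tri x y z k1 k2 k3
      · exact fin z hz x hx hxz.symm k3
    · exact fin y hy z hz hyz k2
  · exact fin x hx y hy hxy k1

theorem bd4 (hG : Girth5 H) {A : Finset V} (h : Al H A 4) : A.card ≤ 10 := by
  by_contra hc
  obtain ⟨A', hA', hcard⟩ := exists_subset_card_eq (show 11 ≤ A.card by omega)
  replace h := h.mono hA'
  have hd : ∀ v ∈ A', 3 ≤ (nb H A' v).card := by
    intro v hv
    have h1 := card_eq (H := H) hv
    have h2 := bd3 hG (h.far hv)
    omega
  have hd3 : ∀ v ∈ A', (nb H A' v).card = 3 := by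
    intro v hv
    have h1 := moore_min hG hv hd
    have := hd v hv
    omega
  have h1 := handshake H A'
  rw [sum_congr rfl hd3, sum_const, hcard] at h1
  exact absurd h1 (by decide)

theorem bd5 (hG : Girth5 H) {A : Finset V} (h : Al H A 5) : A.card ≤ 14 := by
  by_contra hc
  obtain ⟨A', hA', hcard⟩ := exists_subset_card_eq (show 15 ≤ A.card by omega)
  replace h := h.mono hA'
  have hd : ∀ v ∈ A', 4 ≤ (nb H A' v).card := by
    intro v hv
    have h1 := card_eq (H := H) hv
    have h2 := bd4 hG (h.far hv)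
    omega
  obtain ⟨v, hv⟩ : A'.Nonempty := by rw [← card_pos]; omega
  have h1 := moore_min hG hv hd
  have := hd v hv
  omega

open Classical in
/-- the vertices of odd degree -/
noncomputable def oddV (H : SimpleGraph V) (A : Finset V) : Finset V :=
  A.filter (fun v => Odd (nb H A v).card)

theorem mem_oddV {A : Finset V} {v : V} : v ∈ oddV H A ↔ v ∈ A ∧ Odd (nb H A v).card := by
  classical
  unfold oddV
  rw [mem_filter]

theorem even_odd (H : SimpleGraph V) (A : Finset V) : Even (oddV H A).card := by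
  classical
  have h1 := handshake H A
  rw [Nat.even_iff] at h1 ⊢
  rw [← h1, Finset.sum_nat_mod]
  congr 1
  unfold oddV
  rw [card_filter]
  refine sum_congr rfl fun v _ => ?_
  by_cases h : Odd (nb H A v).card
  · rw [if_pos h, Nat.odd_iff.1 h]
  · rw [if_neg h, Nat.even_iff.1 (Nat.not_odd_iff_even.1 h)]

theorem odd16_of_al (hG : Girth5 H) {A : Finset V} (h : Al H A 6) : (oddV H A).card ≤ 16 := by
  classical
  have hsub : oddV H A ⊆ A := fun v hv => (mem_oddV.1 hv).1
  have hle := card_le_card hsub
  have hev := even_odd H A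
  have hA : A.card ≤ 19 := by
    by_contra hc
    obtain ⟨A', hA', hcard⟩ := exists_subset_card_eq (show 20 ≤ A.card by omega)
    replace h := h.mono hA'
    have hd : ∀ v ∈ A', 5 ≤ (nb H A' v).card := by
      intro v hv
      have h1 := card_eq (H := H) hv
      have h2 := bd5 hG (h.far hv)
      omega
    obtain ⟨v, hv⟩ : A'.Nonempty := by rw [← card_pos]; omega
    have h1 := moore_min hG hv hd
    have := hd v hv
    omega
  have hd : ∀ v ∈ A, A.card ≤ 15 + (nb H A v).card := by
    intro v hv
    have h1 := card_eq (H := H) hv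
    have h2 := bd5 hG (h.far hv)
    omega
  by_contra hc
  rw [Nat.even_iff] at hev
  have hA18 : 18 ≤ A.card := by omega
  rcases (show A.card = 18 ∨ A.card = 19 by omega) with hA' | hA'
  · -- all degrees are odd
    have hall : oddV H A = A := eq_of_subset_of_card_le hsub (by omega)
    have hodd : ∀ v ∈ A, Odd (nb H A v).card := fun v hv =>
      (mem_oddV.1 (show v ∈ oddV H A by rw [hall]; exact hv)).2
    have hd3 : ∀ v ∈ A, 3 ≤ (nb H A v).card := fun v hv => by
      have := hd v hv; omega
    have h5 : ∀ v ∈ A, (nb H A v).card ≠ 3 → 5 ≤ (nb H A v).card := by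
      intro v hv h1
      have h2 := hodd v hv
      have h3 := hd3 v hv
      rw [Nat.odd_iff] at h2
      omega
    -- a vertex at distance two from a cubic vertex has degree at least five
    have key : ∀ v ∈ A, (nb H A v).card = 3 → ∀ u ∈ nb H A v, ∀ x ∈ nb H A u, x ≠ v →
        5 ≤ (nb H A x).card := by
      intro v hv hv3 u hu x hx hxv
      have hfc : (far H A v).card = 14 := by
        have := card_eq (H := H) hv
        omega
      have hux := (mem_nb.1 hx)
      have hvu := (mem_nb.1 hu)
      have hxf : x ∈ far H A v := mem_far.2 ⟨hux.1, hxv, fun h' =>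
        hG.tri v u x hvu.2 hux.2 h'.symm⟩
      have h1 := card_eq (H := H) hxf
      have h2 := bd4 hG ((h.far hv).far hxf)
      have h3 : insert u (nb H (far H A v) x) ⊆ nb H A x := by
        intro z hz
        rcases mem_insert.1 hz with rfl | hz
        · exact mem_nb.2 ⟨hvu.1, hux.2.symm⟩
        · rw [mem_nb] at hz
          exact mem_nb.2 ⟨(mem_far.1 hz.1).1, hz.2⟩
      have h4 : u ∉ nb H (far H A v) x := fun h' => (mem_far.1 (mem_nb.1 h').1).2.2 hvu.2
      have h6 := card_le_card h3
      rw [card_insert_of_notMem h4] at h6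
      exact h5 x hux.1 (by omega)
    -- the neighbours of a cubic vertex are cubic
    have cub : ∀ v ∈ A, (nb H A v).card = 3 → ∀ u ∈ nb H A v, (nb H A u).card = 3 := by
      intro v hv hv3 u hu
      by_contra hn
      have hu5 := h5 u (mem_nb.1 hu).1 hn
      have hvu : v ∈ nb H A u := mem_nb.2 ⟨hv, (mem_nb.1 hu).2.symm⟩
      have h1 := moore hG (mem_nb.1 hu).1
      rw [← add_sum_erase _ _ hvu] at h1
      have h2 : ((nb H A u).erase v).card • 5 ≤ ∑ x ∈ (nb H A u).erase v, (nb H A x).card :=
        card_nsmul_le_sum _ _ _ fun x hx =>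
          key v hv hv3 u hu x (mem_erase.1 hx).2 (mem_erase.1 hx).1
      rw [card_erase_of_mem hvu, smul_eq_mul] at h2
      omega
    by_cases hex : ∃ v ∈ A, (nb H A v).card = 3
    · obtain ⟨v, hv, hv3⟩ := hex
      obtain ⟨u, hu⟩ : (nb H A v).Nonempty := by rw [← card_pos]; omega
      have hu3 := cub v hv hv3 u hu
      have hvu : v ∈ nb H A u := mem_nb.2 ⟨hv, (mem_nb.1 hu).2.symm⟩
      obtain ⟨x, hx⟩ : ((nb H A u).erase v).Nonempty := by
        rw [← card_pos, card_erase_of_mem hvu]; omega
      rw [mem_erase] at hx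
      have h1 := cub u (mem_nb.1 hu).1 hu3 x hx.2
      have h2 := key v hv hv3 u hu x hx.2 hx.1
      omega
    · push Not at hex
      obtain ⟨v, hv⟩ : A.Nonempty := by rw [← card_pos]; omega
      have h1 := moore_min hG hv (m := 5) (fun u hu => h5 u hu (hex u hu))
      have := h5 v hv (hex v hv)
      omega
  · have hd4 : ∀ v ∈ A, 4 ≤ (nb H A v).card := fun v hv => by
      have := hd v hv; omega
    have h4 : ∀ v ∈ A, (nb H A v).card = 4 := by
      intro v hv
      have h1 := moore_min hG hv hd4
      have := hd4 v hv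
      omega
    have h0 : oddV H A = ∅ := by
      rw [eq_empty_iff_forall_notMem]
      intro v hv
      have h1 := (mem_oddV.1 hv)
      rw [h4 v h1.1] at h1
      exact absurd h1.2 (by decide)
    rw [h0] at hc
    simp at hc

end Q116.FF
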