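import Pool.Agent.Q116.FF.Lift
import Pool.Agent.Q116.FF.G5
import Pool.Agent.TH362.TF.Main

/-!
Reduction to quotients without circuits of length two, three and four; bridgeless multigraphs with
small independence number or large minimum degree.
-/

set_option autoImplicit false

namespace Q116.FF

open Finset Pool.Agent.TH362.TF Pool.Agent.TH362.TF.Four

set_option linter.unusedSectionVars false

variable {V E : Type} [Fintype V] [DecidableEq V] [DecidableEq E]

/-- no circuits of length two, three or four (loops are allowed) -/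
structure Sm (s t : E → V) (S : Finset E) : Prop where
  par : ∀ a b e e', a ≠ b → e ∈ S → e' ∈ S → Ends s t a b e → Ends s t a b e' → e = e'
  tri : ∀ a b c, a ≠ b → b ≠ c → c ≠ a → ∀ e1 ∈ S, ∀ e2 ∈ S, ∀ e3 ∈ S,
    Ends s t a b e1 → Ends s t b c e2 → Ends s t c a e3 → False
  quad : ∀ a b c d, a ≠ b → b ≠ c → c ≠ d → d ≠ a → a ≠ c → b ≠ d → ∀ e1 ∈ S, ∀ e2 ∈ S,
    ∀ e3 ∈ S, ∀ e4 ∈ S, Ends s t a b e1 → Ends s t b c e2 → Ends s t c d e3 → Ends s t d a e4 →
    False

/-- the number of edges which are not loops -/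
def nl (s t : E → V) (S : Finset E) : ℕ := (S.filter (fun e => s e ≠ t e)).card

theorem nl_lt {s t : E → V} {S : Finset E} {T : Finset V} {a x y : V} {e : E} (he : e ∈ S)
    (hxy : x ≠ y) (hx : x ∈ T) (hy : y ∈ T) (k : Ends s t x y e) :
    nl (fun e => mrg T a (s e)) (fun e => mrg T a (t e)) S < nl s t S := by
  unfold nl
  apply card_lt_card
  rw [Finset.ssubset_iff_of_subset]
  · refine ⟨e, ?_, ?_⟩
    · rw [mem_filter]
      refine ⟨he, ?_⟩
      rcases k with ⟨h1, h2⟩ | ⟨h1, h2⟩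
      · rw [h1, h2]; exact hxy
      · rw [h1, h2]; exact hxy.symm
    · rw [mem_filter]
      rintro ⟨_, h⟩
      apply h
      have := ends_mem k hx hy
      show mrg T a (s e) = mrg T a (t e)
      unfold mrg
      rw [if_pos this.1, if_pos this.2]
  · intro e' h
    rw [mem_filter] at h ⊢
    exact ⟨h.1, fun hc => h.2 (congrArg (mrg T a) hc)⟩

theorem exists_red (s t : E → V) (S : Finset E) :
    ∃ f : V → V, (NZ (fun e => f (s e)) (fun e => f (t e)) S → NZ s t S) ∧
      Sm (fun e => f (s e)) (fun e => f (t e)) S := by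
  induction hn : nl s t S using Nat.strong_induction_on generalizing s t with
  | _ n ih =>
    subst hn
    have step : ∀ (T : Finset V) (a : V), nl (fun e => mrg T a (s e)) (fun e => mrg T a (t e)) S <
        nl s t S → (NZ (fun e => mrg T a (s e)) (fun e => mrg T a (t e)) S → NZ s t S) →
        ∃ f : V → V, (NZ (fun e => f (s e)) (fun e => f (t e)) S → NZ s t S) ∧
          Sm (fun e => f (s e)) (fun e => f (t e)) S := by
      intro T a h1 h2
      obtain ⟨f, h3, h4⟩ := ih _ h1 _ _ rfl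
      exact ⟨fun v => f (mrg T a v), fun h => h2 (h3 h), h4⟩
    by_cases h : Sm s t S
    · exact ⟨fun v => v, fun h => h, h⟩
    by_contra hcon
    apply h
    refine ⟨?_, ?_, ?_⟩
    · intro a b e e' hab he he' k k'
      by_contra hne
      exact hcon (step {a, b} a (nl_lt he hab (by simp) (by simp) k) (digon hab he he' hne k k'))
    · intro a b c hab hbc hca e1 h1 e2 h2 e3 h3 k1 k2 k3
      exact hcon (step {a, b, c} a (nl_lt h1 hab (by simp) (by simp) k1)
        (triangle hab hbc hca h1 h2 h3 k1 k2 k3))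
    · intro a b c d hab hbc hcd hda hac hbd e1 h1 e2 h2 e3 h3 e4 h4 k1 k2 k3 k4
      exact hcon (step {a, b, c, d} a (nl_lt h1 hab (by simp) (by simp) k1)
        (quad hab hbc hcd hda hac hbd h1 h2 h3 h4 k1 k2 k3 k4))

theorem Ends.sy {s t : E → V} {u v : V} {e : E} (h : Ends s t u v e) : Ends s t v u e := Or.symm h

/-- the simple graph -/
def gr (s t : E → V) (S : Finset E) : SimpleGraph V where
  Adj u v := u ≠ v ∧ Adj s t S u v
  symm := ⟨fun u v h => ⟨h.1.symm, by
    obtain ⟨e, he, k⟩ := h.2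
    exact ⟨e, he, Ends.sy k⟩⟩⟩
  loopless := ⟨fun v h => h.1 rfl⟩

theorem Sm.girth {s t : E → V} {S : Finset E} (h : Sm s t S) : Girth5 (gr s t S) where
  tri a b c h1 h2 h3 := by
    obtain ⟨n1, e1, m1, k1⟩ := h1
    obtain ⟨n2, e2, m2, k2⟩ := h2
    obtain ⟨n3, e3, m3, k3⟩ := h3
    exact h.tri a b c n1 n2 n3 e1 m1 e2 m2 e3 m3 k1 k2 k3
  quad a b c d hac hbd h1 h2 h3 h4 := by
    obtain ⟨n1, e1, m1, k1⟩ := h1
    obtain ⟨n2, e2, m2, k2⟩ := h2
    obtain ⟨n3, e3, m3, k3⟩ := h3
    obtain ⟨n4, e4, m4, k4⟩ := h4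
    exact h.quad a b c d n1 n2 n3 n4 hac hbd e1 m1 e2 m2 e3 m3 e4 m4 k1 k2 k3 k4

/-- the end of `e` different from `v` -/
def oth (s t : E → V) (v : V) (e : E) : V := if s e = v then t e else s e

theorem cut_card {s t : E → V} {S : Finset E} (h : Sm s t S) (v : V) :
    (cut s t S (fun u => decide (u = v))).card = (nb (gr s t S) univ v).card := by
  have hm : ∀ e, e ∈ cut s t S (fun u => decide (u = v)) ↔
      e ∈ S ∧ oth s t v e ≠ v ∧ Ends s t v (oth s t v e) e := by
    intro e
    unfold cut oth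
    rw [mem_filter]
    by_cases h1 : s e = v
    · rw [if_pos h1]
      constructor
      · rintro ⟨h2, h3⟩
        refine ⟨h2, fun h4 => h3 (by rw [h1, h4]), Or.inl ⟨h1, rfl⟩⟩
      · rintro ⟨h2, h3, _⟩
        exact ⟨h2, fun h4 => h3 (by simpa [h1] using h4)⟩
    · rw [if_neg h1]
      constructor
      · rintro ⟨h2, h3⟩
        have h5 : t e = v := by
          by_contra h6
          exact h3 (by simp [h1, h6])
        exact ⟨h2, h1, Or.inr ⟨rfl, h5⟩⟩
      · rintro ⟨h2, h3, h4⟩
        refine ⟨h2, ?_⟩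
        rcases h4 with ⟨h4, _⟩ | ⟨_, h4⟩
        · exact absurd h4 h1
        · simp [h1, h4]
  refine card_bij (fun e _ => oth s t v e) ?_ ?_ ?_
  · intro e he
    obtain ⟨h1, h2, h3⟩ := (hm e).1 he
    exact mem_nb.2 ⟨mem_univ _, h2.symm, e, h1, h3⟩
  · intro e he e' he' heq
    obtain ⟨h1, h2, h3⟩ := (hm e).1 he
    obtain ⟨h1', h2', h3'⟩ := (hm e').1 he'
    rw [← heq] at h3'
    exact h.par v _ e e' h2.symm h1 h1' h3 h3'
  · intro u hu
    obtain ⟨_, hne, e, he, k⟩ := mem_nb.1 hu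
    have h1 : oth s t v e = u := by
      unfold oth
      rcases k with ⟨h2, h3⟩ | ⟨h2, h3⟩
      · rw [if_pos h2, h3]
      · rw [if_neg (by rw [h2]; exact hne.symm), h2]
    refine ⟨e, (hm e).2 ⟨he, ?_, ?_⟩, h1⟩
    · rw [h1]; exact hne.symm
    · rw [h1]; exact k

theorem odd_sub {s t : E → V} {S : Finset E} (h : Sm s t S) {A : Finset V}
    (hA : ∀ e ∈ S, s e ∈ A ∧ t e ∈ A) : odd s t S ⊆ oddV (gr s t S) A := by
  intro v hv
  rw [odd_iff_cut, cut_card h] at hv
  have hne : (nb (gr s t S) univ v).Nonempty := by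
    rw [← card_pos]; omega
  obtain ⟨u, hu⟩ := hne
  have hin : ∀ {a b : V}, (gr s t S).Adj a b → a ∈ A := by
    rintro a b ⟨_, e, he, k⟩
    rcases k with ⟨h1, _⟩ | ⟨_, h1⟩
    · exact h1 ▸ (hA e he).1
    · exact h1 ▸ (hA e he).2
  refine mem_oddV.2 ⟨hin (mem_nb.1 hu).2, ?_⟩
  have h1 : nb (gr s t S) A v = nb (gr s t S) univ v := by
    ext w
    rw [mem_nb, mem_nb]
    exact ⟨fun h => ⟨mem_univ _, h.2⟩, fun h => ⟨hin h.2.symm, h.2⟩⟩
  rw [h1, Nat.odd_iff]
  exact hv

/-- `α(G) ≤ k` -/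
def IndLe (s t : E → V) (S : Finset E) (k : ℕ) : Prop :=
  ∀ I : Finset V, (∀ u ∈ I, ∀ v ∈ I, u ≠ v → ¬ Adj s t S u v) → I.card ≤ k

theorem al_quot {s t : E → V} {S : Finset E} {k : ℕ} (h : IndLe s t S k) (f : V → V) :
    Al (gr (fun e => f (s e)) (fun e => f (t e)) S) (univ.image f) k := by
  intro I hI hind
  have hsec : ∀ x ∈ I, ∃ v, f v = x := by
    intro x hx
    obtain ⟨v, _, hv⟩ := mem_image.1 (hI hx)
    exact ⟨v, hv⟩
  choose! g hg using hsec
  have hinj : Set.InjOn g I := by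
    intro x hx y hy hxy
    rw [← hg x hx, ← hg y hy, hxy]
  rw [← card_image_of_injOn hinj]
  apply h
  intro u hu v hv huv hadj
  obtain ⟨x, hx, rfl⟩ := mem_image.1 hu
  obtain ⟨y, hy, rfl⟩ := mem_image.1 hv
  have hxy : x ≠ y := fun hc => huv (by rw [hc])
  obtain ⟨e, he, k⟩ := hadj
  refine hind x hx y hy ⟨hxy, e, he, ?_⟩
  rcases k with ⟨h1, h2⟩ | ⟨h1, h2⟩
  · exact Or.inl ⟨(congrArg f h1).trans (hg x hx), (congrArg f h2).trans (hg y hy)⟩
  · exact Or.inr ⟨(congrArg f h1).trans (hg y hy), (congrArg f h2).trans (hg x hx)⟩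

/-- the conclusion from the quotient -/
theorem concl {s t : E → V} {S : Finset E} (h1 : N1 s t S) (f : V → V)
    (hf : NZ (fun e => f (s e)) (fun e => f (t e)) S → NZ s t S)
    (ho : (odd (fun e => f (s e)) (fun e => f (t e)) S).card ≤ 16) : NZ s t S ∨ PQ s t S := by
  have h2 : N1 (fun e => f (s e)) (fun e => f (t e)) S :=
    quot_n1 (Finset.Subset.refl S) (fun e h3 h4 => absurd h3 h4) h1
  rcases main16 _ _ S h2 ho with h3 | h3
  · exact Or.inl (hf h3)
  · exact Or.inr (quot_pq (Finset.Subset.refl S) (fun e h4 h5 => absurd h4 h5) h3)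

theorem of_indep {s t : E → V} {S : Finset E} (h1 : N1 s t S) (h : IndLe s t S 6) :
    NZ s t S ∨ PQ s t S := by
  obtain ⟨f, hf, hs⟩ := exists_red s t S
  refine concl h1 f hf ?_
  refine (card_le_card (odd_sub hs (A := univ.image f) ?_)).trans
    (odd16_of_al hs.girth (al_quot h f))
  intro e _
  exact ⟨mem_image_of_mem f (mem_univ _), mem_image_of_mem f (mem_univ _)⟩


/-! ### Large minimum degree -/

open Classical in
/-- the neighbours of `v` -/
noncomputable def nbr (s t : E → V) (S : Finset E) (v : V) : Finset V :=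
  univ.filter (fun u => u ≠ v ∧ Adj s t S v u)

theorem mem_nbr {s t : E → V} {S : Finset E} {u v : V} :
    u ∈ nbr s t S v ↔ u ≠ v ∧ Adj s t S v u := by
  classical
  unfold nbr
  simp

/-- a class with at most `d` vertices has degree at least `d` in the quotient -/
theorem small_class {s t : E → V} {S : Finset E} {d : ℕ} (hd : ∀ v, d ≤ (nbr s t S v).card)
    (f : V → V) (hs : Sm (fun e => f (s e)) (fun e => f (t e)) S) (x : V)
    (hx : x ∈ univ.image f) (hc : (univ.filter (fun v => f v = x)).card ≤ d) :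
    d ≤ (nb (gr (fun e => f (s e)) (fun e => f (t e)) S) (univ.image f) x).card := by
  classical
  set C := univ.filter (fun v => f v = x) with hC
  have hC0 : 1 ≤ C.card := by
    obtain ⟨v, _, hv⟩ := mem_image.1 hx
    exact card_pos.2 ⟨v, by rw [hC, mem_filter]; exact ⟨mem_univ _, hv⟩⟩
  -- pairs of a vertex of the class and a neighbour outside
  set P := C.sigma (fun v => (nbr s t S v) \ C) with hP
  have h1 : P.card ≤ (nb (gr (fun e => f (s e)) (fun e => f (t e)) S) (univ.image f) x).card := by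
    refine card_le_card_of_injOn (fun p => f p.2) ?_ ?_
    · rintro ⟨v, w⟩ hp
      rw [mem_coe, hP, mem_sigma, mem_sdiff, mem_nbr, hC, mem_filter, mem_filter] at hp
      obtain ⟨⟨_, hv⟩, ⟨_, e, he, k⟩, hw⟩ := hp
      have hw' : f w ≠ x := fun h => hw ⟨mem_univ _, h⟩
      rw [mem_coe, mem_nb]
      refine ⟨mem_image_of_mem f (mem_univ _), hw'.symm, e, he, ?_⟩
      rcases k with ⟨k1, k2⟩ | ⟨k1, k2⟩
      · exact Or.inl ⟨(congrArg f k1).trans hv, congrArg f k2⟩
      · exact Or.inr ⟨congrArg f k1, (congrArg f k2).trans hv⟩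
    · rintro ⟨v, w⟩ hp ⟨v', w'⟩ hp' heq
      rw [mem_coe, hP, mem_sigma, mem_sdiff, mem_nbr, hC, mem_filter, mem_filter] at hp hp'
      obtain ⟨⟨_, hv⟩, ⟨_, e, he, k⟩, hw⟩ := hp
      obtain ⟨⟨_, hv'⟩, ⟨_, e', he', k'⟩, hw'⟩ := hp'
      simp only at heq hv hv' hw hw'
      have hne : x ≠ f w := fun h => hw ⟨mem_univ _, h.symm⟩
      have hee : e = e' := by
        refine hs.par x (f w) e e' hne he he' ?_ ?_
        · rcases k with ⟨k1, k2⟩ | ⟨k1, k2⟩
          · exact Or.inl ⟨(congrArg f k1).trans hv, congrArg f k2⟩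
          · exact Or.inr ⟨congrArg f k1, (congrArg f k2).trans hv⟩
        · rcases k' with ⟨k1, k2⟩ | ⟨k1, k2⟩
          · exact Or.inl ⟨(congrArg f k1).trans hv', (congrArg f k2).trans heq.symm⟩
          · exact Or.inr ⟨(congrArg f k1).trans heq.symm, (congrArg f k2).trans hv'⟩
      subst hee
      have hvw : v ≠ w' := by
        rintro rfl
        exact hw' ⟨mem_univ _, hv⟩
      rcases ends_inj k k' with ⟨k1, k2⟩ | ⟨k1, _⟩
      · subst k1; subst k2; rfl
      · exact absurd k1 hvw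
  have h2 : C.card * (d + 1 - C.card) ≤ P.card := by
    rw [hP, card_sigma]
    rw [← smul_eq_mul]
    apply card_nsmul_le_sum
    intro v hv
    have h3 : nbr s t S v ⊆ (nbr s t S v \ C) ∪ C.erase v := by
      intro w hw
      rw [mem_union, mem_sdiff, mem_erase]
      by_cases h4 : w ∈ C
      · exact Or.inr ⟨(mem_nbr.1 hw).1, h4⟩
      · exact Or.inl ⟨hw, h4⟩
    have h4 := card_le_card h3
    have h5 := card_union_le (nbr s t S v \ C) (C.erase v)
    rw [card_erase_of_mem hv] at h5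
    have h6 := hd v
    omega
  refine le_trans ?_ (h2.trans h1)
  obtain ⟨m, hm⟩ : ∃ m, d = C.card + m := ⟨d - C.card, by omega⟩
  have h3 : d + 1 - C.card = m + 1 := by omega
  rw [h3, hm]
  nlinarith

theorem of_degree {s t : E → V} {S : Finset E} (h1 : N1 s t S) {d : ℕ}
    (hd : ∀ v, d ≤ (nbr s t S v).card) (hn : 648 ≤ Fintype.card V)
    (hdn : Fintype.card V < 18 * (d + 1)) : NZ s t S ∨ PQ s t S := by
  classical
  obtain ⟨f, hf, hs⟩ := exists_red s t S
  refine concl h1 f hf ?_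
  set H := gr (fun e => f (s e)) (fun e => f (t e)) S with hH
  set A := univ.image f with hA
  have hd36 : 36 ≤ d := by omega
  set K := A.filter (fun x => d + 1 ≤ (univ.filter (fun v => f v = x)).card) with hK
  have hKc : K.card ≤ 17 := by
    have h2 : K.card • (d + 1) ≤ ∑ x ∈ K, (univ.filter (fun v => f v = x)).card :=
      card_nsmul_le_sum _ _ _ fun x hx => (mem_filter.1 hx).2
    have h3 : ∑ x ∈ K, (univ.filter (fun v => f v = x)).card ≤
        ∑ x ∈ A, (univ.filter (fun v => f v = x)).card :=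
      sum_le_sum_of_subset (filter_subset _ _)
    have h4 : ∑ x ∈ A, (univ.filter (fun v => f v = x)).card = Fintype.card V := by
      rw [← card_univ]
      exact (card_eq_sum_card_image f univ).symm
    rw [smul_eq_mul] at h2
    by_contra hc
    have h5 : 18 ≤ K.card := by omega
    have h6 : 18 * (d + 1) ≤ K.card * (d + 1) := Nat.mul_le_mul_right _ h5
    omega
  have hAn : A.card ≤ Fintype.card V := by
    rw [← card_univ]
    exact card_image_le
  have hA17 : A.card ≤ 17 := by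
    by_contra hc
    have hex : ∃ x ∈ A, x ∉ K := by
      by_contra hn'
      push Not at hn'
      have := card_le_card (show A ⊆ K from hn')
      omega
    have hbig : ∀ x ∈ A, x ∉ K → d ≤ (nb H A x).card := by
      intro x hx hxK
      refine small_class hd f hs x hx ?_
      by_contra h2
      exact hxK (mem_filter.2 ⟨hx, by omega⟩)
    obtain ⟨x, hx, hxK⟩ := hex
    have h2 : 1 + ∑ u ∈ nb H A x, (nb H A u).card ≤ A.card := moore hs.girth hx
    have h3 := hbig x hx hxK
    have h4 : ((nb H A x) \ K).card • d ≤ ∑ u ∈ (nb H A x) \ K, (nb H A u).card :=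
      card_nsmul_le_sum _ _ _ fun u hu => by
        rw [mem_sdiff] at hu
        exact hbig u (mem_nb.1 hu.1).1 hu.2
    have h5 : ∑ u ∈ (nb H A x) \ K, (nb H A u).card ≤ ∑ u ∈ nb H A x, (nb H A u).card :=
      sum_le_sum_of_subset sdiff_subset
    have h6 := le_card_sdiff K (nb H A x)
    rw [smul_eq_mul] at h4
    have h7 : (d - 17) * d ≤ ((nb H A x) \ K).card * d := Nat.mul_le_mul_right _ (by omega)
    obtain ⟨m, hm⟩ : ∃ m, d = 36 + m := ⟨d - 36, by omega⟩
    have h8 : (d - 17) * d = 684 + 55 * m + m * m := by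
      have : d - 17 = 19 + m := by omega
      rw [this, hm]; ring
    omega
  have h2 := card_le_card (odd_sub hs (A := A) (fun e _ =>
    ⟨mem_image_of_mem f (mem_univ _), mem_image_of_mem f (mem_univ _)⟩))
  have h3 : (oddV H A).card ≤ A.card := card_le_card fun v hv => (mem_oddV.1 hv).1
  have h4 := even_odd H A
  rw [Nat.even_iff] at h4
  rw [← hH] at h2
  omega

end Q116.FF
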