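import Pool.Agent.Q116.FF.Bl
import Pool.Agent.Q116.FF.Red
import Pool.Agent.TH362.TF.Multi

/-!
The properties of the snark with eighteen vertices.
-/

set_option autoImplicit false

namespace Q116.FF

open Finset Pool.Agent.TH362.TF

theorem card_filter_ofFn {α : Type} {n : ℕ} (f : Fin n → α) (p : α → Bool) :
    (univ.filter (fun i => p (f i) = true)).card = (List.ofFn f).countP p := by
  have h : (List.ofFn f).countP p = (List.ofFn f).countP (fun a => decide (p a = true)) := by simp
  rw [h, ← Multiset.coe_countP, ← Fin.univ_val_map, Multiset.countP_map]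
  rfl

/-- extension by `false` -/
def ext18 (x : Fin 18 → Bool) (k : ℕ) : Bool := if h : k < 18 then x ⟨k, h⟩ else false

theorem ext18_fin (x : Fin 18 → Bool) (i : Fin 18) : ext18 x (i : ℕ) = x i := by
  unfold ext18
  rw [dif_pos i.2]

theorem pre_count (X : ℕ → Bool) (n : ℕ) :
    (pre X n).countP id = ∑ i ∈ range n, (if X i = true then 1 else 0) := by
  induction n with
  | zero => rfl
  | succ n ih =>
    rw [sum_range_succ, ← ih]
    show (X n :: pre X n).countP id = _
    rw [List.countP_cons]
    rfl

theorem pre_count18 (x : Fin 18 → Bool) :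
    (pre (ext18 x) 18).countP id = (univ.filter (fun i => x i = true)).card := by
  rw [pre_count, Finset.sum_range, card_filter]
  refine sum_congr rfl fun i _ => ?_
  rw [ext18_fin]

theorem EL_lt : ∀ e ∈ EL, e.1 ≤ e.2 ∧ e.2 ≤ 17 := by decide

theorem EL_count (x : Fin 18 → Bool) :
    EL.countP (fun e => Bool.xor (ext18 x e.1) (ext18 x e.2)) = (cut es et univ x).card := by
  rw [EL_eq, ← card_filter_ofFn]
  unfold cut
  congr 1
  ext e
  rw [mem_filter, mem_filter]
  simp only [ext18_fin, mem_univ, true_and]
  cases x (es e) <;> cases x (et e) <;> simp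

theorem snark_cut (x : Fin 18 → Bool) : (cut es et univ x).card ≠ 1 ∧
    ((cut es et univ x).card = 0 → (univ.filter (fun i => x i = true)).card = 0 ∨
      (univ.filter (fun i => x i = true)).card = 18) ∧
    ((cut es et univ x).card = 3 → (univ.filter (fun i => x i = true)).card = 1 ∨
      (univ.filter (fun i => x i = true)).card = 17) := by
  by_contra hcon
  have hc3 : (cut es et univ x).card ≤ 3 := by
    by_contra h
    apply hcon
    refine ⟨by omega, fun h' => by omega, fun h' => by omega⟩
  have h1 := go_false [false, true] tcut (ext18 x) 18 (fun k _ => by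
    cases ext18 x k <;> simp) (by
    intro k hk
    have hcount : EL.countP (fun e => Nat.ble e.2 k &&
        (Bool.xor ((pre (ext18 x) (k + 1)).getD (k - e.1) false)
          ((pre (ext18 x) (k + 1)).getD (k - e.2) false))) =
        EL.countP (fun e => Nat.ble e.2 k && Bool.xor (ext18 x e.1) (ext18 x e.2)) := by
      refine List.countP_congr fun e he => ?_
      by_cases h : e.2 ≤ k
      · rw [pre_getD _ _ k e.1 ((EL_lt e he).1.trans h), pre_getD _ _ k e.2 h]
      · have : Nat.ble e.2 k = false := by
          rw [← Bool.not_eq_true, Nat.ble_eq]; exact h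
        rw [this, Bool.false_and, Bool.false_and]
    have hle : EL.countP (fun e => Nat.ble e.2 k && Bool.xor (ext18 x e.1) (ext18 x e.2)) ≤
        EL.countP (fun e => Bool.xor (ext18 x e.1) (ext18 x e.2)) := by
      refine List.countP_mono_left fun e _ h => ?_
      rw [Bool.and_eq_true] at h
      exact h.2
    rw [EL_count] at hle
    unfold tcut
    rw [hcount]
    by_cases hk17 : k = 17
    · subst hk17
      have hall : EL.countP (fun e => Nat.ble e.2 17 && Bool.xor (ext18 x e.1) (ext18 x e.2)) =
          (cut es et univ x).card := by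
        rw [← EL_count]
        refine List.countP_congr fun e he => ?_
        have : Nat.ble e.2 17 = true := by rw [Nat.ble_eq]; exact (EL_lt e he).2
        rw [this, Bool.true_and]
      rw [hall, pre_count18]
      generalize (cut es et univ x).card = c at hcon
      generalize (univ.filter (fun i => x i = true)).card = p at hcon
      have e1 : ∀ a b : ℕ, Nat.beq a b = decide (a = b) := by
        intro a b
        by_cases h : a = b
        · subst h; simp
        · rw [decide_eq_false h, ← Bool.not_eq_true, Nat.beq_eq]; exact h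
      simp only [e1]
      by_cases c0 : c = 0
      · subst c0
        by_cases p0 : p = 0
        · exact absurd ⟨by decide, fun _ => Or.inl p0, fun h => by omega⟩ hcon
        · by_cases p1 : p = 18
          · exact absurd ⟨by decide, fun _ => Or.inr p1, fun h => by omega⟩ hcon
          · simp [p0, p1]
      · by_cases c1 : c = 1
        · subst c1; simp
        · by_cases c3 : c = 3
          · subst c3
            by_cases p0 : p = 1
            · exact absurd ⟨by decide, fun h => by omega, fun _ => Or.inl p0⟩ hcon
            · by_cases p1 : p = 17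
              · exact absurd ⟨by decide, fun h => by omega, fun _ => Or.inr p1⟩ hcon
              · simp [p0, p1]
          · exact absurd ⟨c1, fun h => absurd h c0, fun h => absurd h c3⟩ hcon
    · have h17 : Nat.beq k 17 = false := by
        rw [← Bool.not_eq_true, Nat.beq_eq]; exact hk17
      simp only [h17, cond_false]
      rw [Nat.ble_eq]
      omega) 18 0 rfl
  rw [show pre (ext18 x) 0 = [] from rfl, cut_search] at h1
  exact absurd h1 (by decide)

/-- the code of a colour -/
def enc (y : F) : ℕ := y.1.val + 2 * y.2.val

theorem enc_mem : ∀ y : F, y ≠ 0 → enc y ∈ [1, 2, 3] := by decide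

theorem enc_xor : ∀ a b c : F, a + b + c = 0 →
    Nat.beq (Nat.xor (Nat.xor (enc c) (enc a)) (enc b)) 0 = true := by decide

theorem inc_facts : ∀ v : Fin 18, ∀ e : Fin 27, ¬ (es e = v ∧ et e = v) ∧
    ((es e = v ∨ et e = v) ↔ e ∈ ({i0 v, i1 v, i2 v} : Finset (Fin 27))) := by decide

theorem i_ne : ∀ v : Fin 18, i0 v ≠ i1 v ∧ i0 v ≠ i2 v ∧ i1 v ≠ i2 v := by decide

theorem VC_lt : ∀ c ∈ VC, c.1 ≤ c.2.2 ∧ c.2.1 ≤ c.2.2 := by decide

theorem at_vertex {φ : Fin 27 → F} {v : Fin 18} (h : Cons es et univ φ v) :
    φ (i0 v) + φ (i1 v) + φ (i2 v) = 0 := by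
  unfold Cons at h
  have h1 : ∀ e ∈ (univ : Finset (Fin 27)), ((if es e = v then φ e else 0) +
      (if et e = v then φ e else 0)) =
      if e ∈ ({i0 v, i1 v, i2 v} : Finset (Fin 27)) then φ e else 0 := by
    intro e _
    obtain ⟨h2, h3⟩ := inc_facts v e
    by_cases h4 : es e = v
    · rw [if_pos h4, if_neg (fun h5 => h2 ⟨h4, h5⟩), if_pos (h3.1 (Or.inl h4)), add_zero]
    · by_cases h5 : et e = v
      · rw [if_neg h4, if_pos h5, if_pos (h3.1 (Or.inr h5)), zero_add]
      · rw [if_neg h4, if_neg h5, if_neg (fun h6 => (h3.2 h6).elim h4 h5), add_zero]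
  rw [sum_congr rfl h1, sum_ite_mem, univ_inter] at h
  obtain ⟨n1, n2, n3⟩ := i_ne v
  rw [sum_insert (by simp [n1, n2]), sum_pair n3] at h
  rw [add_assoc]
  exact h

theorem snark_nz : ¬ NZ es et univ := by
  rintro ⟨φ, h1, h2⟩
  set X : ℕ → ℕ := fun k => if h : k < 27 then enc (φ ⟨k, h⟩) else 0 with hX
  have hXf : ∀ i : Fin 27, X (i : ℕ) = enc (φ i) := by
    intro i
    simp only [hX, dif_pos i.2]
  have h3 := go_false [1, 2, 3] tcol X 27 (by
    intro k hk
    have := hXf ⟨k, hk⟩
    simp only at this
    rw [this]
    exact enc_mem _ (h1 _ (mem_univ _))) (by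
    intro k hk
    unfold tcol
    rw [List.all_eq_true]
    intro c hc
    by_cases hck : c.2.2 = k
    · have e1 := VC_lt c hc
      have e2 : (pre X (k + 1)).getD 0 0 = X c.2.2 := by
        have := pre_getD X 0 k k le_rfl
        rw [Nat.sub_self] at this
        rw [this, hck]
      rw [e2, pre_getD X 0 k c.1 (hck ▸ e1.1), pre_getD X 0 k c.2.1 (hck ▸ e1.2)]
      rw [Bool.or_eq_true]
      right
      rw [VC_eq, List.mem_ofFn] at hc
      obtain ⟨v, rfl⟩ := hc
      simp only [hXf]
      exact enc_xor _ _ _ (at_vertex (h2 v))
    · have : Nat.beq c.2.2 k = false := by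
        rw [← Bool.not_eq_true, Nat.beq_eq]; exact hck
      rw [this]
      rfl) 27 0 rfl
  rw [show pre X 0 = [] from rfl, col_search] at h3
  exact absurd h3 (by decide)

theorem snark_al : IndLe es et univ 7 := by
  intro I hI
  by_contra hcard
  push Not at hcard
  set x : Fin 18 → Bool := fun i => decide (i ∈ I) with hx
  have hpop : (univ.filter (fun i => x i = true)).card = I.card := by
    congr 1
    ext i
    simp [hx]
  have hmono : ∀ m, (pre (ext18 x) 18).countP id ≤ (pre (ext18 x) (18 - m)).countP id + m := by
    intro m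
    rw [pre_count, pre_count]
    induction m with
    | zero => simp
    | succ m ih =>
      rcases Nat.lt_or_ge m 18 with h | h
      · have h2 : 18 - m = (18 - (m + 1)) + 1 := by omega
        rw [h2, sum_range_succ (fun i => if ext18 x i = true then 1 else 0) (18 - (m + 1))] at ih
        have h3 : (if ext18 x (18 - (m + 1)) = true then 1 else 0) ≤ 1 := by split_ifs <;> omega
        omega
      · have h2 : 18 - m = 18 - (m + 1) := by omega
        rw [h2] at ih
        omega
  have h3 := go_false [false, true] tal (ext18 x) 18 (fun k _ => by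
    cases ext18 x k <;> simp) (by
    intro k hk
    unfold tal
    rw [Bool.and_eq_true]
    constructor
    · have e1 : (pre (ext18 x) (k + 1)).getD 0 false = ext18 x k := by
        have := pre_getD (ext18 x) false k k le_rfl
        rw [Nat.sub_self] at this
        exact this
      rw [e1]
      cases hxk : ext18 x k
      · rfl
      · rw [Bool.or_eq_true]
        right
        rw [List.all_eq_true]
        intro e he
        by_cases hek : e.2 = k
        · rw [pre_getD _ _ k e.1 (hek ▸ (EL_lt e he).1)]
          rw [Bool.or_eq_true]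
          right
          rw [EL_eq, List.mem_ofFn] at he
          obtain ⟨i, rfl⟩ := he
          simp only at hek ⊢
          rw [ext18_fin]
          rw [← hek, ext18_fin] at hxk
          by_contra h4
          have h5 : x (es i) = true := by simpa using h4
          have h6 : es i ∈ I := by simpa [hx] using h5
          have h7 : et i ∈ I := by simpa [hx] using hxk
          refine hI _ h6 _ h7 ?_ ⟨i, mem_univ _, Or.inl ⟨rfl, rfl⟩⟩
          intro h8
          exact (inc_facts (es i) i).1 ⟨rfl, h8.symm⟩
        · have : Nat.beq e.2 k = false := by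
            rw [← Bool.not_eq_true, Nat.beq_eq]; exact hek
          rw [this]
          rfl
    · rw [Nat.ble_eq]
      have h4 := hmono (17 - k)
      have h5 : 18 - (17 - k) = k + 1 := by omega
      rw [pre_count18, hpop, h5] at h4
      omega) 18 0 rfl
  rw [show pre (ext18 x) 0 = [] from rfl, al_search] at h3
  exact absurd h3 (by decide)

end Q116.FF
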