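import Pool.Agent.Q116.FF.Wf

/-!
Classes of graphs all of whose quotients without circuits of length at most four have at most
sixteen vertices of odd degree.
-/

set_option autoImplicit false

namespace Q116.FF

open Finset Pool.Agent.TH362.TF Pool.Agent.TH362.TF.Four

set_option linter.unusedSectionVars false

variable {V E : Type} [Fintype V] [DecidableEq V] [DecidableEq E]

theorem dd_of_odd {s t : E → V} {S : Finset E} (h1 : N1 s t S) (h : (odd s t S).card ≤ 16) :
    DD s t S := by
  refine ⟨h1, fun f _ => ?_⟩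
  have h2 := quot_odd (s := s) (t := t) (S := S) (S' := S) (f := f) (Finset.Subset.refl S)
    (fun e h3 h4 => absurd h3 h4)
  exact (card_le_card h2).trans (card_image_le.trans h)

theorem dd_of_indep {s t : E → V} {S : Finset E} (h1 : N1 s t S) (h : IndLe s t S 6) :
    DD s t S := by
  refine ⟨h1, fun f hs => ?_⟩
  refine (card_le_card (odd_sub hs (A := univ.image f) ?_)).trans
    (odd16_of_al hs.girth (al_quot h f))
  intro e _
  exact ⟨mem_image_of_mem f (mem_univ _), mem_image_of_mem f (mem_univ _)⟩

theorem dd_of_degree {s t : E → V} {S : Finset E} (h1 : N1 s t S) {d : ℕ}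
    (hd : ∀ v, d ≤ (nbr s t S v).card) (hn : 648 ≤ Fintype.card V)
    (hdn : Fintype.card V < 18 * (d + 1)) : DD s t S := by
  classical
  refine ⟨h1, fun f hs => ?_⟩
  set H := gr (fun e => f (s e)) (fun e => f (t e)) S with hH
  set A := univ.image f with hA
  have hd36 : 36 ≤ d := by omega
  set K := A.filter (fun x => d + 1 ≤ (univ.filter (fun v => f v = x)).card) with hK
  have hKc : K.card ≤ 17 := by
    have h2 : K.card • (d + 1) ≤ ∑ x ∈ K, (univ.filter (fun v => f v = x)).card :=
      card_nsmul_le_sum _ _ _ fun x hx => (mem_filter.1 hx).2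
    have h3 : ∑ x ∈ K, (univ.filter (fun v => f v = x)).card ≤
        ∑ x ∈ A, (univ.filter (fun v => f v = x)).card :=
      sum_le_sum_of_subset (filter_subset _ _)
    have h4 : ∑ x ∈ A, (univ.filter (fun v => f v = x)).card = Fintype.card V := by
      rw [← card_univ]
      exact (card_eq_sum_card_image f univ).symm
    rw [smul_eq_mul] at h2
    by_contra hc
    have h5 : 18 ≤ K.card := by omega
    have h6 : 18 * (d + 1) ≤ K.card * (d + 1) := Nat.mul_le_mul_right _ h5
    omega
  have hAn : A.card ≤ Fintype.card V := by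
    rw [← card_univ]
    exact card_image_le
  have hA17 : A.card ≤ 17 := by
    by_contra hc
    have hex : ∃ x ∈ A, x ∉ K := by
      by_contra hn'
      push Not at hn'
      have := card_le_card (show A ⊆ K from hn')
      omega
    have hbig : ∀ x ∈ A, x ∉ K → d ≤ (nb H A x).card := by
      intro x hx hxK
      refine small_class hd f hs x hx ?_
      by_contra h2
      exact hxK (mem_filter.2 ⟨hx, by omega⟩)
    obtain ⟨x, hx, hxK⟩ := hex
    have h2 : 1 + ∑ u ∈ nb H A x, (nb H A u).card ≤ A.card := moore hs.girth hx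
    have h3 := hbig x hx hxK
    have h4 : ((nb H A x) \ K).card • d ≤ ∑ u ∈ (nb H A x) \ K, (nb H A u).card :=
      card_nsmul_le_sum _ _ _ fun u hu => by
        rw [mem_sdiff] at hu
        exact hbig u (mem_nb.1 hu.1).1 hu.2
    have h5 : ∑ u ∈ (nb H A x) \ K, (nb H A u).card ≤ ∑ u ∈ nb H A x, (nb H A u).card :=
      sum_le_sum_of_subset sdiff_subset
    have h6 := le_card_sdiff K (nb H A x)
    rw [smul_eq_mul] at h4
    have h7 : (d - 17) * d ≤ ((nb H A x) \ K).card * d := Nat.mul_le_mul_right _ (by omega)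
    obtain ⟨m, hm⟩ : ∃ m, d = 36 + m := ⟨d - 36, by omega⟩
    have h8 : (d - 17) * d = 684 + 55 * m + m * m := by
      have : d - 17 = 19 + m := by omega
      rw [this, hm]; ring
    omega
  have h2 := card_le_card (odd_sub hs (A := A) (fun e _ =>
    ⟨mem_image_of_mem f (mem_univ _), mem_image_of_mem f (mem_univ _)⟩))
  have h3 : (oddV H A).card ≤ A.card := card_le_card fun v hv => (mem_oddV.1 hv).1
  have h4 := even_odd H A
  rw [Nat.even_iff] at h4
  rw [← hH] at h2
  omega

theorem dd_of_cover {s t : E → V} {S : Finset E} (h1 : N1 s t S) (C : Finset V) (hC : C.card ≤ 8)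
    (hcov : ∀ e ∈ S, s e ≠ t e → s e ∈ C ∨ t e ∈ C) : DD s t S := by
  classical
  refine ⟨h1, fun f hs => ?_⟩
  have h1' : N1 (fun e => f (s e)) (fun e => f (t e)) S :=
    quot_n1 (Finset.Subset.refl S) (fun e h1 h2 => absurd h1 h2) h1
  set H := gr (fun e => f (s e)) (fun e => f (t e)) S with hH
  set A := univ.image f with hA
  set C' := C.image f with hC'
  have hC'A : C' ⊆ A := image_subset_image (subset_univ _)
  have hc8 : C'.card ≤ 8 := card_image_le.trans hC
  have hsub := odd_sub hs (A := A) (fun e _ =>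
    ⟨mem_image_of_mem f (mem_univ _), mem_image_of_mem f (mem_univ _)⟩)
  rw [← hH] at hsub
  refine (card_le_card hsub).trans ?_
  have hev := even_odd H A
  rw [Nat.even_iff] at hev
  suffices h17 : (oddV H A).card ≤ 17 by omega
  set O := oddV H A \ C' with hO
  have hnbC : ∀ x ∈ O, nb H A x ⊆ C' := by
    intro x hx u hu
    rw [hO, mem_sdiff] at hx
    obtain ⟨_, hne, e, he, k⟩ := mem_nb.1 hu
    have h2 : s e ≠ t e := by
      intro hc
      apply hne
      rcases k with ⟨k1, k2⟩ | ⟨k1, k2⟩
      · exact k1.symm.trans ((congrArg f hc).trans k2)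
      · exact k2.symm.trans ((congrArg f hc).symm.trans k1)
    rcases hcov e he h2 with h3 | h3
    · rcases k with ⟨k1, k2⟩ | ⟨k1, k2⟩
      · exact absurd (k1 ▸ mem_image_of_mem f h3) hx.2
      · exact k1 ▸ mem_image_of_mem f h3
    · rcases k with ⟨k1, k2⟩ | ⟨k1, k2⟩
      · exact k2 ▸ mem_image_of_mem f h3
      · exact absurd (k2 ▸ mem_image_of_mem f h3) hx.2
  have hdeg : ∀ x ∈ O, 3 ≤ (nb H A x).card := by
    intro x hx
    rw [hO, mem_sdiff] at hx
    have h2 := (mem_oddV.1 hx.1).2
    have h3 : (nb H A x).card ≠ 1 := by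
      have h4 := h1' (fun u => decide (u = x))
      rw [cut_card hs, ← hH] at h4
      have h5 : nb H A x = nb H univ x := by
        ext w
        rw [mem_nb, mem_nb]
        refine ⟨fun h => ⟨mem_univ _, h.2⟩, fun h => ⟨?_, h.2⟩⟩
        obtain ⟨_, e, he, k⟩ := h.2
        rcases k with ⟨_, k2⟩ | ⟨k1, _⟩
        · rw [← k2]; exact mem_image_of_mem f (mem_univ _)
        · rw [← k1]; exact mem_image_of_mem f (mem_univ _)
      rw [h5]; exact h4
    rw [Nat.odd_iff] at h2
    omega
  have hpairs : 3 * O.card ≤ 28 := by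
    have h2 : (O.biUnion (fun x => (nb H A x).powersetCard 2)).card =
        ∑ x ∈ O, ((nb H A x).powersetCard 2).card := by
      apply card_biUnion
      intro x hx y hy hxy
      change Disjoint ((nb H A x).powersetCard 2) ((nb H A y).powersetCard 2)
      rw [Finset.disjoint_left]
      intro P hP hP'
      rw [mem_powersetCard] at hP hP'
      obtain ⟨a, b, hab, rfl⟩ := card_eq_two.1 hP.2
      have a1 := (mem_nb.1 (hP.1 (mem_insert_self _ _))).2
      have a2 := (mem_nb.1 (hP.1 (mem_insert_of_mem (mem_singleton_self _)))).2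
      have b1 := (mem_nb.1 (hP'.1 (mem_insert_self _ _))).2
      have b2 := (mem_nb.1 (hP'.1 (mem_insert_of_mem (mem_singleton_self _)))).2
      exact hs.girth.quad x a y b hxy hab a1 b1.symm b2 a2.symm
    have h3 : (O.biUnion (fun x => (nb H A x).powersetCard 2)) ⊆ C'.powersetCard 2 := by
      intro P hP
      rw [mem_biUnion] at hP
      obtain ⟨x, hx, hP⟩ := hP
      rw [mem_powersetCard] at hP ⊢
      exact ⟨hP.1.trans (hnbC x hx), hP.2⟩
    have h4 := card_le_card h3
    rw [h2, card_powersetCard] at h4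
    have h5 : O.card • 3 ≤ ∑ x ∈ O, ((nb H A x).powersetCard 2).card := by
      apply card_nsmul_le_sum
      intro x hx
      rw [card_powersetCard]
      have := Nat.choose_le_choose 2 (hdeg x hx)
      exact this
    have h6 : C'.card.choose 2 ≤ 28 := Nat.choose_le_choose 2 hc8
    rw [smul_eq_mul] at h5
    omega
  have h2 : (oddV H A).card ≤ O.card + C'.card := by
    have := card_sdiff_add_card (oddV H A) C'
    rw [hO, this]
    exact card_le_card subset_union_left
  omega

end Q116.FF
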