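import Pool.Agent.Q116.FF.Cls

/-!
Translation of the hypotheses.
-/

set_option autoImplicit false

namespace Q116.FF

open Finset Pool.Agent.TH362.TF Pool.Agent.TH362.TF.Four

variable {V E : Type} [Fintype V] [DecidableEq V] [Fintype E] [DecidableEq E]

theorem n1_conv {s t : E → V}
    (h : ∀ Z : Finset V, (univ.filter fun e => ¬ (s e ∈ Z ↔ t e ∈ Z)).card ≠ 1) :
    N1 s t (univ : Finset E) := by
  intro x
  rw [show cut s t univ x = univ.filter fun e => ¬ (s e ∈ univ.filter (fun v => x v = true) ↔
    t e ∈ univ.filter (fun v => x v = true)) from ?_]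
  · exact h _
  · unfold cut
    ext e
    simp only [mem_filter, mem_univ, true_and]
    cases x (s e) <;> cases x (t e) <;> simp

/-- One of four conditions: any seven vertices contain two adjacent ones; the number `n` of vertices
is at least 648 and every vertex has more than `n/18 - 1` neighbours; at most eight vertices cover
all edges other than loops; at most sixteen vertices have odd degree. -/
theorem dd_conv {s t : E → V} (h1 : N1 s t (univ : Finset E))
    (h : (∀ I : Finset V, 7 ≤ I.card → ∃ e, s e ∈ I ∧ t e ∈ I ∧ s e ≠ t e) ∨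
      (648 ≤ Fintype.card V ∧ ∀ v, Fintype.card V < 18 * ((univ.filter (fun u => u ≠ v ∧
        ∃ e, (s e = v ∧ t e = u) ∨ (s e = u ∧ t e = v))).card + 1)) ∨
      (∃ C : Finset V, C.card ≤ 8 ∧ ∀ e, s e ≠ t e → s e ∈ C ∨ t e ∈ C) ∨
      (univ.filter (fun v => Odd ((univ.filter (fun e => s e = v)).card +
        (univ.filter (fun e => t e = v)).card))).card ≤ 16) : DD s t (univ : Finset E) := by
  rcases h with h | ⟨hn, h⟩ | ⟨C, hC, h⟩ | h
  · refine dd_of_indep h1 fun I hI => ?_
    by_contra hc
    obtain ⟨e, h2, h3, h4⟩ := h I (by omega)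
    exact hI _ h2 _ h3 h4 ⟨e, mem_univ _, Or.inl ⟨rfl, rfl⟩⟩
  · refine dd_of_degree h1 (d := Fintype.card V / 18) (fun v => ?_) hn (by omega)
    have h2 := h v
    have h3 : (univ.filter (fun u => u ≠ v ∧
        ∃ e, (s e = v ∧ t e = u) ∨ (s e = u ∧ t e = v))) ⊆ nbr s t univ v := by
      intro u hu
      rw [mem_filter] at hu
      obtain ⟨_, hne, e, he⟩ := hu
      refine mem_nbr.2 ⟨hne, e, mem_univ _, ?_⟩
      exact he
    have h4 := card_le_card h3
    omega
  · exact dd_of_cover h1 C hC fun e _ hne => h e hne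
  · refine dd_of_odd h1 ?_
    refine le_trans (card_le_card ?_) h
    intro v hv
    unfold odd at hv
    rw [mem_filter] at hv ⊢
    refine ⟨mem_univ _, ?_⟩
    have h2 := hv.2
    unfold deg at h2
    rw [sum_add_distrib, ← card_filter, ← card_filter] at h2
    exact h2

end Q116.FF
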