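import Pool.Agent.Q116.FF.Nr3
import Pool.Agent.Q116.FF.Cnv
import Pool.Agent.H179R3.HF.MinusVertex

/-!
`1/2`-flow-pairs for the graphs in the class `DD`.
-/

set_option autoImplicit false

namespace Q116.FF

open Finset Pool.Agent.TH362.TF Pool.Agent.TH362.TF.Four Pool.Agent.TH362.TF.Str
open Pool.Agent.H160R2.HF (OrGraph)
open Pool.Agent.H179R3.HF (IsZ nearlyK' K4)

set_option linter.unusedSectionVars false

variable {V E : Type} [Fintype V] [DecidableEq V] [Fintype E] [DecidableEq E]
variable {s t : E → V}

theorem bridgeless_of (h : N1 s t (univ : Finset E)) : (OrGraph.mk s t).Bridgeless := by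
  classical
  intro e
  by_contra hc
  set H := (OrGraph.mk s t).sub (univ.erase e) with hH
  apply h (fun v => decide (H.Reachable (s e) v))
  rw [card_eq_one]
  refine ⟨e, ?_⟩
  ext g
  unfold cut
  rw [mem_filter, mem_singleton]
  constructor
  · rintro ⟨_, h1⟩
    by_contra hne
    apply h1
    have h2 : H.Reachable (s g) (t g) := by
      by_cases h3 : s g = t g
      · rw [h3]
      · apply SimpleGraph.Adj.reachable
        rw [hH]
        unfold OrGraph.sub
        rw [SimpleGraph.fromRel_adj]
        exact ⟨h3, Or.inl ⟨g, mem_erase.2 ⟨hne, mem_univ _⟩, rfl, rfl⟩⟩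
    have h3 : H.Reachable (s e) (s g) ↔ H.Reachable (s e) (t g) :=
      ⟨fun h4 => h4.trans h2, fun h4 => h4.trans h2.symm⟩
    simp only [h3]
  · rintro rfl
    refine ⟨mem_univ _, ?_⟩
    have h1 : H.Reachable (s g) (s g) := SimpleGraph.Reachable.refl _
    have hc' : ¬ H.Reachable (s g) (t g) := hc
    show decide (H.Reachable (s g) (s g)) ≠ decide (H.Reachable (s g) (t g))
    rw [decide_eq_true h1, decide_eq_false hc']
    decide

theorem isFlow_iff (φ : E → ℤ) :
    (OrGraph.mk s t).IsFlow φ ↔ ∀ v, ex s t (univ : Finset E) φ v = 0 := by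
  unfold OrGraph.IsFlow ex
  refine forall_congr' fun v => ?_
  rw [sum_sub_distrib, ← sum_filter, ← sum_filter, sub_eq_zero]
  exact eq_comm

/-- lifting a flow through a cut of size two -/
theorem lift_two {e f : E} (hef : e ≠ f) {x : V → Bool} (hc : cut s t (univ : Finset E) x = {e, f})
    (φ : E → ℤ)
    (h : ∀ v, ex (fun g => mrg {s e, t e} (s e) (s g)) (fun g => mrg {s e, t e} (s e) (t g))
      (univ : Finset E) φ v = 0) :
    ∃ c, (c = φ f ∨ c = -φ f) ∧
      ∀ v, ex s t (univ : Finset E) (fun g => if g = e then c else φ g) v = 0 := by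
  have hxe : x (s e) ≠ x (t e) := by
    have h1 : e ∈ cut s t (univ : Finset E) x := by rw [hc]; exact mem_insert_self _ _
    exact (mem_filter.1 h1).2
  have hne : s e ≠ t e := fun hc => hxe (by rw [hc])
  set ψ : E → ℤ := fun g => if g = e then 0 else φ g with hψ
  have hψe : ψ e = 0 := by rw [hψ]; exact if_pos rfl
  -- outside
  have hout : ∀ v, v ≠ s e → v ≠ t e → ex s t (univ : Finset E) ψ v = 0 := by
    intro v h1 h2
    rw [← h v]
    have key : ∀ w, mrg {s e, t e} (s e) w = v ↔ w = v := by
      intro w
      unfold mrg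
      by_cases hw : w ∈ ({s e, t e} : Finset V)
      · rw [if_pos hw]
        rw [mem_insert, mem_singleton] at hw
        constructor
        · intro h3; exact absurd h3.symm h1
        · intro h3
          rcases hw with hw | hw
          · exact absurd (h3.symm.trans hw) h1
          · exact absurd (h3.symm.trans hw) h2
      · rw [if_neg hw]
    unfold ex
    refine sum_congr rfl fun g _ => ?_
    simp only [key]
    by_cases hg : g = e
    · subst hg
      rw [if_neg (Ne.symm h2), if_neg (Ne.symm h1), if_neg (Ne.symm h2), if_neg (Ne.symm h1)]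
    · rw [hψ]
      beta_reduce
      rw [if_neg hg]
  -- the two ends together
  have hin : ex s t (univ : Finset E) ψ (s e) + ex s t (univ : Finset E) ψ (t e) = 0 := by
    rw [← h (s e)]
    have key : ∀ w, mrg {s e, t e} (s e) w = s e ↔ w = s e ∨ w = t e := by
      intro w
      unfold mrg
      by_cases hw : w ∈ ({s e, t e} : Finset V)
      · rw [if_pos hw]
        rw [mem_insert, mem_singleton] at hw
        exact ⟨fun _ => hw, fun _ => rfl⟩
      · rw [if_neg hw]
        rw [mem_insert, mem_singleton] at hw
        exact ⟨fun h => absurd (Or.inl h) hw, fun h => absurd h hw⟩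
    unfold ex
    rw [← sum_add_distrib]
    refine sum_congr rfl fun g _ => ?_
    simp only [key]
    by_cases hg : g = e
    · subst hg
      rw [hψe]
      simp
    · have h1 : ψ g = φ g := by rw [hψ]; exact if_neg hg
      rw [h1]
      have h2 : ∀ w, (if w = s e then φ g else 0) + (if w = t e then φ g else 0) =
          if w = s e ∨ w = t e then φ g else 0 := by
        intro w
        by_cases h3 : w = s e
        · rw [if_pos h3, if_neg (fun h4 => hne (h3.symm.trans h4)), if_pos (Or.inl h3), add_zero]
        · by_cases h4 : w = t e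
          · rw [if_neg h3, if_pos h4, if_pos (Or.inr h4), zero_add]
          · rw [if_neg h3, if_neg h4, if_neg (fun h5 => h5.elim h3 h4), add_zero]
      rw [← h2, ← h2]
      ring
  -- the side of `s e`
  have hside : ex s t (univ : Finset E) ψ (s e) = φ f ∨
      ex s t (univ : Finset E) ψ (s e) = -φ f := by
    have h1 : ∑ v ∈ univ.filter (fun v => x v = x (s e)), ex s t (univ : Finset E) ψ v =
        ex s t (univ : Finset E) ψ (s e) := by
      refine sum_eq_single_of_mem (s e) (mem_filter.2 ⟨mem_univ _, rfl⟩) ?_
      intro v hv hvne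
      have hv2 : v ≠ t e := fun h3 => hxe (by rw [← h3]; exact (mem_filter.1 hv).2.symm)
      exact hout v hvne hv2
    have h2 : ∑ v ∈ univ.filter (fun v => x v = x (s e)), ex s t (univ : Finset E) ψ v =
        ∑ g, ((if x (t g) = x (s e) then ψ g else 0) - (if x (s g) = x (s e) then ψ g else 0)) := by
      unfold ex
      rw [sum_comm]
      refine sum_congr rfl fun g _ => ?_
      rw [sum_sub_distrib, sum_ite_eq, sum_ite_eq]
      simp only [mem_filter, mem_univ, true_and]
    have h3 : ∑ g, ((if x (t g) = x (s e) then ψ g else 0) -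
        (if x (s g) = x (s e) then ψ g else 0)) =
        ((if x (t f) = x (s e) then ψ f else 0) - (if x (s f) = x (s e) then ψ f else 0)) := by
      refine sum_eq_single_of_mem f (mem_univ _) ?_
      intro g _ hg
      by_cases hge : g = e
      · rw [hge, hψe]; simp
      · have h4 : g ∉ cut s t (univ : Finset E) x := by
          rw [hc, mem_insert, mem_singleton]
          rintro (h5 | h5)
          · exact hge h5
          · exact hg h5
        unfold cut at h4
        rw [mem_filter, not_and, not_not] at h4
        rw [h4 (mem_univ _), sub_self]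
    rw [← h1, h2, h3]
    have h4 : ψ f = φ f := by rw [hψ]; exact if_neg hef.symm
    have h5 : x (s f) ≠ x (t f) := by
      have h6 : f ∈ cut s t (univ : Finset E) x := by
        rw [hc]; exact mem_insert_of_mem (mem_singleton_self _)
      exact (mem_filter.1 h6).2
    rw [h4]
    have hb : ∀ p q r : Bool, q ≠ p → (p = r ∧ ¬ q = r) ∨ (¬ p = r ∧ q = r) := by decide
    rcases hb (x (t f)) (x (s f)) (x (s e)) h5 with ⟨h6, h7⟩ | ⟨h6, h7⟩
    · left
      rw [if_pos h6, if_neg h7, sub_zero]
    · right
      rw [if_neg h6, if_pos h7, zero_sub]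
  refine ⟨ex s t (univ : Finset E) ψ (s e), hside, fun v => ?_⟩
  have hadd : ex s t (univ : Finset E) (fun g => if g = e then ex s t (univ : Finset E) ψ (s e)
      else φ g) v = ex s t (univ : Finset E) ψ v +
      ((if t e = v then ex s t (univ : Finset E) ψ (s e) else 0) -
        (if s e = v then ex s t (univ : Finset E) ψ (s e) else 0)) := by
    generalize ex s t (univ : Finset E) ψ (s e) = c
    unfold ex
    rw [← sum_erase_add _ _ (mem_univ e), ← sum_erase_add (univ : Finset E)
      (fun g => (if t g = v then ψ g else 0) - if s g = v then ψ g else 0) (mem_univ e), hψe]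
    simp only [if_true, ite_self, sub_self, add_zero]
    congr 1
    refine sum_congr rfl fun g hg => ?_
    have h1 : ψ g = φ g := by rw [hψ]; exact if_neg (mem_erase.1 hg).1
    rw [h1, if_neg (mem_erase.1 hg).1]
  rw [hadd]
  by_cases h1 : v = s e
  · subst h1
    rw [if_neg hne.symm, if_pos rfl]
    ring
  · by_cases h2 : v = t e
    · subst h2
      rw [if_pos rfl, if_neg hne]
      linarith
    · rw [if_neg (Ne.symm h2), if_neg (Ne.symm h1), hout v h1 h2]
      ring

theorem pair_of_dd : ∀ (s t : E → V), DD s t (univ : Finset E) →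
    ∃ φ₂ φ₄ : E → ℤ, (OrGraph.mk s t).IsHalfFlowPair φ₂ φ₄ := by
  intro s t h
  induction hn : nl s t (univ : Finset E) using Nat.strong_induction_on generalizing s t with
  | _ n ih =>
    subst hn
    by_cases h2 : ∀ x, (cut s t (univ : Finset E) x).card ≠ 2
    · -- no cut of size two
      have hz : ∃ f₀ : E → K4, IsZ (OrGraph.mk s t) f₀ ∧ ∀ g g', f₀ g = 0 → f₀ g' = 0 → g = g' := by
        have conv : ∀ (φ : E → F), (∀ v, Cons s t (univ : Finset E) φ v) →
            IsZ (OrGraph.mk s t) φ := by
          intro φ h3 v
          have h4 := h3 v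
          unfold Cons at h4
          rw [sum_add_distrib, ← sum_filter, ← sum_filter] at h4
          exact h4
        rcases near h h2 with ⟨φ, p1, p2⟩ | ⟨e0, _, φ, p1, p2⟩
        · exact ⟨φ, conv φ p2, fun g g' hg => absurd hg (p1 g (mem_univ g))⟩
        · refine ⟨fun g => if g = e0 then 0 else φ g, conv _ (fun v => ?_), ?_⟩
          · have h3 := p2 v
            unfold Cons at h3 ⊢
            rw [← add_sum_erase univ _ (mem_univ e0)]
            have h4 : ((if s e0 = v then (if e0 = e0 then (0 : F) else φ e0) else 0) +
                (if t e0 = v then (if e0 = e0 then (0 : F) else φ e0) else 0)) = 0 := by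
              simp
            refine (congrArg₂ (· + ·) h4 ?_).trans (zero_add 0)
            refine Eq.trans ?_ h3
            refine sum_congr rfl fun e he1 => ?_
            simp only [if_neg (mem_erase.1 he1).1]
          · have key : ∀ g, (if g = e0 then (0 : F) else φ g) = 0 → g = e0 := by
              intro g hg
              by_contra hne
              rw [if_neg hne] at hg
              exact p1 g (mem_erase.2 ⟨hne, mem_univ g⟩) hg
            intro g g' hg hg'
            rw [key g hg, key g' hg']
      obtain ⟨f₀, k1, k2⟩ := hz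
      exact nearlyK' (OrGraph.mk s t) (bridgeless_of h.n1) k1 k2
    · push Not at h2
      obtain ⟨x, hx⟩ := h2
      obtain ⟨e, f, hef, hc⟩ := card_eq_two.1 hx
      have hxe : x (s e) ≠ x (t e) := by
        have h1 : e ∈ cut s t (univ : Finset E) x := by rw [hc]; exact mem_insert_self _ _
        exact (mem_filter.1 h1).2
      have hne : s e ≠ t e := fun hc => hxe (by rw [hc])
      have hlt := nl_lt (S := (univ : Finset E)) (T := {s e, t e}) (a := s e) (mem_univ e) hne
        (mem_insert_self _ _) (mem_insert_of_mem (mem_singleton_self _)) (Or.inl ⟨rfl, rfl⟩)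
      obtain ⟨φ₂, φ₄, k1, k2, k3⟩ := ih _ hlt _ _ (h.quot (mrg {s e, t e} (s e))) rfl
      obtain ⟨c2, r2, q2⟩ := lift_two hef hc φ₂ ((isFlow_iff φ₂).1 k1.2)
      obtain ⟨c4, r4, q4⟩ := lift_two hef hc φ₄ ((isFlow_iff φ₄).1 k2.2)
      refine ⟨_, _, ⟨fun g => ?_, (isFlow_iff _).2 q2⟩, ⟨fun g => ?_, (isFlow_iff _).2 q4⟩,
        fun g => ?_⟩
      · beta_reduce
        split_ifs with h3
        · rcases r2 with r2 | r2
          · rw [r2]; exact k1.1 f
          · rw [r2, abs_neg]; exact k1.1 f
        · exact k1.1 g
      · beta_reduce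
        split_ifs with h3
        · rcases r4 with r4 | r4
          · rw [r4]; exact k2.1 f
          · rw [r4, abs_neg]; exact k2.1 f
        · exact k2.1 g
      · beta_reduce
        split_ifs with h3
        · intro h4
          have h5 : φ₂ f = 0 := by
            rcases r2 with r2 | r2
            · rw [← r2]; exact h4
            · rw [r2, neg_eq_zero] at h4; exact h4
          have h6 := k3 f h5
          rcases r4 with r4 | r4
          · rw [r4]; exact h6
          · rw [r4, abs_neg]; exact h6
        · exact k3 g

end Q116.FF
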