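import Pool.Agent.Q116.FF.Cls

/-!
Graphs in the class `DD` without cuts of size two have a flow over the group of order four with at
most one zero.
-/

set_option autoImplicit false

namespace Q116.FF

open Finset Pool.Agent.TH362.TF Pool.Agent.TH362.TF.Four Pool.Agent.TH362.TF.Str

set_option linter.unusedSectionVars false

variable {V E : Type} [Fintype V] [DecidableEq V] [DecidableEq E]

theorem uniq {κ : V → Fin 10} {s t : E → V} {S : Finset E} (hκ : IsPQ s t S κ) {k l : Fin 10}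
    (hkl : k ≠ l) {e e' : E} (he : e ∈ S) (he' : e' ∈ S) (hj : Joins κ s t k l e)
    (hj' : Joins κ s t k l e') : e = e' :=
  (pq_join hκ hkl he' hj').2 e he hj

theorem joins_of_ends {κ : V → Fin 10} {s t : E → V} {a b : V} {e : E} (h : Ends s t a b e) :
    Joins κ s t (κ a) (κ b) e := by
  rcases h with ⟨h1, h2⟩ | ⟨h1, h2⟩
  · exact Or.inl ⟨by rw [h1], by rw [h2]⟩
  · exact Or.inr ⟨by rw [h1], by rw [h2]⟩

theorem joins_symm {κ : V → Fin 10} {s t : E → V} {k l : Fin 10} {e : E}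
    (h : Joins κ s t k l e) : Joins κ s t l k e := Or.symm h

/-- closed walks of length three and four in the Petersen graph with stationary steps -/
theorem walk3 : ∀ A B C : Fin 10, (A = B ∨ padj A B = true) → (B = C ∨ padj B C = true) →
    (C = A ∨ padj C A = true) → (A = B ∧ B = C) ∨ (A ≠ B ∧ B ≠ C ∧ A = C) ∨
    (A ≠ B ∧ C ≠ A ∧ B = C) ∨ (B ≠ C ∧ C ≠ A ∧ A = B) := by decide +kernel

def b4 (A B C D : Fin 10) : Bool :=
  (A == B && B == C && C == D) || (A != B && (A == C || B == D || (A == D && B == C))) ||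
    (B != C && (B == D || (B == A && C == D))) || (C != D && A == C)

theorem b4_true : ∀ A B C D : Fin 10, (A = B ∨ padj A B = true) → (B = C ∨ padj B C = true) →
    (C = D ∨ padj C D = true) → (D = A ∨ padj D A = true) → b4 A B C D = true := by
  decide +kernel

theorem walk4 (A B C D : Fin 10) (h1 : A = B ∨ padj A B = true) (h2 : B = C ∨ padj B C = true)
    (h3 : C = D ∨ padj C D = true) (h4 : D = A ∨ padj D A = true) :
    (A = B ∧ B = C ∧ C = D) ∨
    (A ≠ B ∧ A = C) ∨ (B ≠ C ∧ B = D) ∨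
    (A ≠ B ∧ A = D ∧ B = C) ∨ (B ≠ C ∧ B = A ∧ C = D) ∨ (A ≠ B ∧ B = D) ∨ (C ≠ D ∧ A = C) := by
  have h := b4_true A B C D h1 h2 h3 h4
  unfold b4 at h
  simp only [Bool.or_eq_true, Bool.and_eq_true, beq_iff_eq, bne_iff_ne, ne_eq] at h
  tauto

/-- two edges joining the same classes -/
theorem same_edge {κ : V → Fin 10} {s t : E → V} {S : Finset E} (hκ : IsPQ s t S κ)
    {a b c d : V} (hab : κ a ≠ κ b) (h1 : κ a = κ c) (h2 : κ b = κ d) {e e' : E} (he : e ∈ S)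
    (he' : e' ∈ S) (k1 : Ends s t a b e) (k2 : Ends s t c d e') : e = e' := by
  refine uniq hκ hab he he' (joins_of_ends k1) ?_
  rw [h1, h2]
  exact joins_of_ends k2

section
variable {s t : E → V} {S : Finset E} {κ : V → Fin 10} {k : Fin 10} {T : Finset V} {a0 : V}
  {e0 : E} {f : V → V} {g : V → V}

/-- The joint quotient: the classes outside the class `k`, and the quotient `f` inside. -/
structure Jnt (s t : E → V) (S : Finset E) (κ : V → Fin 10) (k : Fin 10) (a0 : V) (e0 : E)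
    (f g : V → V) : Prop where
  pq : IsPQ s t S κ
  ha0 : κ a0 ≠ k
  he0 : κ (s e0) ≠ κ (t e0)
  sm : Sm (fun e => f (mrg (univ.filter (fun v => κ v ≠ k)) a0 (s e)))
    (fun e => f (mrg (univ.filter (fun v => κ v ≠ k)) a0 (t e))) (S.erase e0)
  gk : ∀ v, κ (g v) = κ v
  gi : ∀ v, κ v = k → f (g v) = f v
  gg : ∀ v w, κ v = k → κ w = k → f v = f w → g v = g w
  go : ∀ v w, κ v ≠ k → κ v = κ w → g v = g w

theorem mrg_in {κ : V → Fin 10} {k : Fin 10} {a0 v : V} (h : κ v = k) :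
    mrg (univ.filter (fun v => κ v ≠ k)) a0 v = v := by
  unfold mrg
  rw [if_neg]
  rw [mem_filter]
  exact fun h' => h'.2 h

theorem mrg_out {κ : V → Fin 10} {k : Fin 10} {a0 v : V} (h : κ v ≠ k) :
    mrg (univ.filter (fun v => κ v ≠ k)) a0 v = a0 := by
  unfold mrg
  rw [if_pos]
  rw [mem_filter]
  exact ⟨mem_univ _, h⟩

theorem Jnt.edge (j : Jnt s t S κ k a0 e0 f g) {a b : V} {e : E} (he : e ∈ S)
    (h : Ends (fun e => g (s e)) (fun e => g (t e)) a b e) :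
    Ends (fun e => κ (s e)) (fun e => κ (t e)) (κ a) (κ b) e := by
  rcases h with ⟨h1, h2⟩ | ⟨h1, h2⟩
  · left
    exact ⟨by rw [← h1, j.gk], by rw [← h2, j.gk]⟩
  · right
    exact ⟨by rw [← h1, j.gk], by rw [← h2, j.gk]⟩

theorem Jnt.padj (j : Jnt s t S κ k a0 e0 f g) {a b : V} {e : E} (he : e ∈ S)
    (h : Ends (fun e => g (s e)) (fun e => g (t e)) a b e) : κ a = κ b ∨ padj (κ a) (κ b) = true := by
  by_cases hab : κ a = κ b
  · exact Or.inl hab
  · right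
    refine (pq_join j.pq hab he ?_).1
    exact j.edge he h

theorem Jnt.same (j : Jnt s t S κ k a0 e0 f g) {a b c d : V} (hab : κ a ≠ κ b)
    (h1 : κ a = κ c) (h2 : κ b = κ d) {e e' : E} (he : e ∈ S) (he' : e' ∈ S)
    (k1 : Ends (fun e => g (s e)) (fun e => g (t e)) a b e)
    (k2 : Ends (fun e => g (s e)) (fun e => g (t e)) c d e') :
    e = e' ∧ ((a = c ∧ b = d) ∨ (a = d ∧ b = c)) := by
  have he'' : e = e' := by
    refine uniq j.pq hab he he' ?_ ?_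
    · exact j.edge he k1
    · rw [h1, h2]
      exact j.edge he' k2
  subst he''
  exact ⟨rfl, ends_inj k1 k2⟩

/-- an edge with distinct ends in one class is an edge inside the class `k` -/
theorem Jnt.inside (j : Jnt s t S κ k a0 e0 f g) {a b : V} (hne : a ≠ b) (hab : κ a = κ b)
    {e : E} (he : e ∈ S) (h : Ends (fun e => g (s e)) (fun e => g (t e)) a b e) :
    κ a = k ∧ f a ≠ f b ∧ e ∈ S.erase e0 ∧
      Ends (fun e => f (mrg (univ.filter (fun v => κ v ≠ k)) a0 (s e)))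
        (fun e => f (mrg (univ.filter (fun v => κ v ≠ k)) a0 (t e))) (f a) (f b) e := by
  obtain ⟨x, y, hx, hy, hxy⟩ : ∃ x y, g x = a ∧ g y = b ∧ ((s e = x ∧ t e = y) ∨
      (s e = y ∧ t e = x)) := by
    rcases h with ⟨h1, h2⟩ | ⟨h1, h2⟩
    · exact ⟨s e, t e, h1, h2, Or.inl ⟨rfl, rfl⟩⟩
    · exact ⟨t e, s e, h2, h1, Or.inr ⟨rfl, rfl⟩⟩
  have k1 : κ x = κ a := by rw [← hx, j.gk]
  have k2 : κ y = κ b := by rw [← hy, j.gk]
  have hk : κ a = k := by
    by_contra hc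
    apply hne
    rw [← hx, ← hy]
    exact j.go x y (by rw [k1]; exact hc) (by rw [k1, k2, hab])
  have kx : κ x = k := by rw [k1, hk]
  have ky : κ y = k := by rw [k2, ← hab, hk]
  have fx : f a = f x := by rw [← hx]; exact j.gi x kx
  have fy : f b = f y := by rw [← hy]; exact j.gi y ky
  refine ⟨hk, ?_, ?_, ?_⟩
  · intro hc
    apply hne
    rw [← hx, ← hy]
    exact j.gg x y kx ky (by rw [← fx, ← fy, hc])
  · rw [mem_erase]
    refine ⟨?_, he⟩
    rintro rfl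
    apply j.he0
    rcases hxy with ⟨h1, h2⟩ | ⟨h1, h2⟩
    · rw [h1, h2, kx, ky]
    · rw [h1, h2, kx, ky]
  · rcases hxy with ⟨h1, h2⟩ | ⟨h1, h2⟩
    · left
      refine ⟨?_, ?_⟩
      · show f (mrg _ a0 (s e)) = f a
        rw [h1, mrg_in kx, fx]
      · show f (mrg _ a0 (t e)) = f b
        rw [h2, mrg_in ky, fy]
    · right
      refine ⟨?_, ?_⟩
      · show f (mrg _ a0 (s e)) = f b
        rw [h1, mrg_in ky, fy]
      · show f (mrg _ a0 (t e)) = f a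
        rw [h2, mrg_in kx, fx]

theorem Jnt.inj (j : Jnt s t S κ k a0 e0 f g) {a b : V} (ha : ∃ x, g x = a) (hb : ∃ y, g y = b)
    (ka : κ a = k) (kb : κ b = k) (h : f a = f b) : a = b := by
  obtain ⟨x, rfl⟩ := ha
  obtain ⟨y, rfl⟩ := hb
  have kx : κ x = k := by rw [← j.gk, ka]
  have ky : κ y = k := by rw [← j.gk, kb]
  rw [j.gi x kx, j.gi y ky] at h
  exact j.gg x y kx ky h

theorem end1 {a b : V} {e : E} (h : Ends (fun e => g (s e)) (fun e => g (t e)) a b e) :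
    ∃ x, g x = a := by
  rcases h with ⟨h, _⟩ | ⟨_, h⟩
  · exact ⟨_, h⟩
  · exact ⟨_, h⟩

theorem Jnt.smg (j : Jnt s t S κ k a0 e0 f g) :
    Sm (fun e => g (s e)) (fun e => g (t e)) S := by
  refine ⟨?_, ?_, ?_⟩
  · intro a b e e' hab he he' h h'
    by_cases hk : κ a = κ b
    · obtain ⟨_, q1, q2, q3⟩ := j.inside hab hk he h
      obtain ⟨_, _, q2', q3'⟩ := j.inside hab hk he' h'
      exact j.sm.par _ _ _ _ q1 q2 q2' q3 q3'
    · exact (j.same hk rfl rfl he he' h h').1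
  · intro a b c hab hbc hca e1 h1 e2 h2 e3 h3 k1 k2 k3
    rcases walk3 _ _ _ (j.padj h1 k1) (j.padj h2 k2) (j.padj h3 k3) with
      ⟨q1, q2⟩ | ⟨q1, q2, q3⟩ | ⟨q1, q2, q3⟩ | ⟨q1, q2, q3⟩
    · obtain ⟨_, r1, r2, r3⟩ := j.inside hab q1 h1 k1
      obtain ⟨_, r1', r2', r3'⟩ := j.inside hbc q2 h2 k2
      obtain ⟨_, r1'', r2'', r3''⟩ := j.inside hca (by rw [q1, q2]) h3 k3
      exact j.sm.tri _ _ _ r1 r1' r1'' _ r2 _ r2' _ r2'' r3 r3' r3''
    · -- `κ a = κ c`: edges `ab` and `cb`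
      obtain ⟨_, r⟩ := j.same q1 q3 rfl h1 h2 k1 (Or.symm k2)
      rcases r with ⟨r, _⟩ | ⟨r, _⟩
      · exact hca r.symm
      · exact hab r
    · -- `κ b = κ c`: edges `ab` and `ac`
      obtain ⟨_, r⟩ := j.same q1 rfl q3 h1 h3 k1 (Or.symm k3)
      rcases r with ⟨_, r⟩ | ⟨r, _⟩
      · exact hbc r
      · exact hca r.symm
    · -- `κ a = κ b`: edges `bc` and `ac`
      obtain ⟨_, r⟩ := j.same q1 q3.symm rfl h2 h3 k2 (Or.symm k3)
      rcases r with ⟨r, _⟩ | ⟨r, _⟩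
      · exact hab r.symm
      · exact hbc r
  · intro a b c d hab hbc hcd hda hac hbd e1 h1 e2 h2 e3 h3 e4 h4 k1 k2 k3 k4
    rcases walk4 _ _ _ _ (j.padj h1 k1) (j.padj h2 k2) (j.padj h3 k3) (j.padj h4 k4) with
      ⟨q1, q2, q3⟩ | ⟨q1, q2⟩ | ⟨q1, q2⟩ | ⟨q1, q2, q3⟩ | ⟨q1, q2, q3⟩ | ⟨q1, q2⟩ | ⟨q1, q2⟩
    · obtain ⟨_, r1, r2, r3⟩ := j.inside hab q1 h1 k1
      obtain ⟨_, r1', r2', r3'⟩ := j.inside hbc q2 h2 k2
      obtain ⟨_, r1'', r2'', r3''⟩ := j.inside hcd q3 h3 k3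
      obtain ⟨_, r1a, r2a, r3a⟩ := j.inside hda (by rw [q1, q2, q3]) h4 k4
      have i1 := (j.inside hab q1 h1 k1).1
      have f13 : f a ≠ f c := fun hc => hac (j.inj (end1 k1) (end1 k3) i1 (by rw [← q2, ← q1, i1]) hc)
      have f24 : f b ≠ f d := fun hc => hbd (j.inj (end1 (Or.symm k1)) (end1 (Or.symm k3))
        (by rw [← q1, i1]) (by rw [← q3, ← q2, ← q1, i1]) hc)
      exact j.sm.quad _ _ _ _ r1 r1' r1'' r1a f13 f24 _ r2 _ r2' _ r2'' _ r2a r3 r3' r3'' r3a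
    · -- `κ a = κ c ≠ κ b`: edges `ab` and `cb`
      obtain ⟨_, r⟩ := j.same q1 q2 rfl h1 h2 k1 (Or.symm k2)
      rcases r with ⟨r, _⟩ | ⟨r, _⟩
      · exact hac r
      · exact hab r
    · -- `κ b = κ d ≠ κ c`: edges `bc` and `dc`
      obtain ⟨_, r⟩ := j.same q1 q2 rfl h2 h3 k2 (Or.symm k3)
      rcases r with ⟨r, _⟩ | ⟨r, _⟩
      · exact hbd r
      · exact hbc r
    · -- `κ a = κ d`, `κ b = κ c`: edges `ab` and `dc`
      obtain ⟨_, r⟩ := j.same q1 q2 q3 h1 h3 k1 (Or.symm k3)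
      rcases r with ⟨r, _⟩ | ⟨r, _⟩
      · exact hda r.symm
      · exact hac r
    · -- `κ b = κ a`, `κ c = κ d`: edges `bc` and `ad`
      obtain ⟨_, r⟩ := j.same q1 q2 q3 h2 h4 k2 (Or.symm k4)
      rcases r with ⟨r, _⟩ | ⟨r, _⟩
      · exact hab r.symm
      · exact hbd r
    · -- `κ b = κ d ≠ κ a`: edges `ab` and `ad`
      obtain ⟨_, r⟩ := j.same q1 rfl q2 h1 h4 k1 (Or.symm k4)
      rcases r with ⟨_, r⟩ | ⟨r, _⟩
      · exact hbd r
      · exact hda r.symm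
    · -- `κ a = κ c ≠ κ d`: edges `cd` and `ad`
      obtain ⟨_, r⟩ := j.same q1 q2.symm rfl h3 h4 k3 (Or.symm k4)
      rcases r with ⟨r, _⟩ | ⟨r, _⟩
      · exact hac r.symm
      · exact hcd r

end

end Q116.FF
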