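import Pool.Agent.Q116.FF.Nr

/-!
Graphs in the class `DD` without cuts of size two have a flow over the group of order four with at
most one zero.
-/

set_option autoImplicit false

namespace Q116.FF

open Finset Pool.Agent.TH362.TF Pool.Agent.TH362.TF.Four Pool.Agent.TH362.TF.Str

set_option linter.unusedSectionVars false

variable {V E : Type} [Fintype V] [DecidableEq V] [DecidableEq E]
variable {s t : E → V} {S : Finset E} {κ : V → Fin 10} {k : Fin 10} {a0 : V}
  {e0 : E} {f : V → V} {g : V → V}

theorem exists_rep (hκ : IsPQ s t S κ) : ∃ r : Fin 10 → V, ∀ l, κ (r l) = l := by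
  have h : ∀ l, ∃ v, κ v = l := by
    intro l
    obtain ⟨e, _, he⟩ := hκ.2 l (pnb l 0) (padj_pnb l 0)
    rcases he with ⟨h1, _⟩ | ⟨_, h1⟩
    · exact ⟨_, h1⟩
    · exact ⟨_, h1⟩
  choose r hr using h
  exact ⟨r, hr⟩

theorem exists_jnt (hκ : IsPQ s t S κ) (k : Fin 10) (he0 : κ (s e0) ≠ κ (t e0)) :
    ∃ (a0 : V) (f g : V → V),
      (NZ (fun e => f (mrg (univ.filter (fun v => κ v ≠ k)) a0 (s e)))
        (fun e => f (mrg (univ.filter (fun v => κ v ≠ k)) a0 (t e))) (S.erase e0) →
      NZ (fun e => mrg (univ.filter (fun v => κ v ≠ k)) a0 (s e))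
        (fun e => mrg (univ.filter (fun v => κ v ≠ k)) a0 (t e)) (S.erase e0)) ∧
      Jnt s t S κ k a0 e0 f g := by
  classical
  obtain ⟨r, hr⟩ := exists_rep hκ
  have ha : κ (r (pnb k 0)) ≠ k := by rw [hr]; exact pnb_ne k 0
  obtain ⟨f, hf, hs⟩ := exists_red
    (fun e => mrg (univ.filter (fun v => κ v ≠ k)) (r (pnb k 0)) (s e))
    (fun e => mrg (univ.filter (fun v => κ v ≠ k)) (r (pnb k 0)) (t e)) (S.erase e0)
  let ρ : V → V := fun y => if h : ∃ x, κ x = k ∧ f x = y then h.choose else r k
  have hρ : ∀ v, κ v = k → κ (ρ (f v)) = k ∧ f (ρ (f v)) = f v := by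
    intro v hv
    have h : ∃ x, κ x = k ∧ f x = f v := ⟨v, hv, rfl⟩
    have h2 : ρ (f v) = h.choose := dif_pos h
    rw [h2]
    exact h.choose_spec
  refine ⟨r (pnb k 0), f, fun v => if κ v = k then ρ (f v) else r (κ v), hf,
    ⟨hκ, ha, he0, hs, ?_, ?_, ?_, ?_⟩⟩
  · intro v
    beta_reduce
    split_ifs with h
    · rw [(hρ v h).1, h]
    · exact hr _
  · intro v h
    beta_reduce
    rw [if_pos h]
    exact (hρ v h).2
  · intro v w hv hw hfw
    beta_reduce
    rw [if_pos hv, if_pos hw, hfw]
  · intro v w hv hw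
    beta_reduce
    rw [if_neg hv, if_neg (by rw [← hw]; exact hv), hw]

theorem Jnt.odd_le (j : Jnt s t S κ k a0 e0 f g) (h : DD s t S) :
    (odd (fun e => f (mrg (univ.filter (fun v => κ v ≠ k)) a0 (s e)))
      (fun e => f (mrg (univ.filter (fun v => κ v ≠ k)) a0 (t e))) (S.erase e0)).card ≤ 9 := by
  classical
  have hsm := h.small g j.smg
  set O := odd (fun e => g (s e)) (fun e => g (t e)) S with hO
  obtain ⟨r, hr⟩ := exists_rep j.pq
  -- the outer classes
  have hout : ∀ l, l ≠ k → g (r l) ∈ O := by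
    intro l hl
    rw [hO, odd_iff_cut]
    have h1 : cut (fun e => g (s e)) (fun e => g (t e)) S (fun u => decide (u = g (r l))) =
        cut s t S (fun v => decide (κ v = l)) := by
      have h2 : ∀ v, g v = g (r l) ↔ κ v = l := by
        intro v
        constructor
        · intro h3
          rw [← j.gk v, h3, j.gk, hr]
        · intro h3
          exact j.go v (r l) (by rw [h3]; exact hl) (by rw [h3, hr])
      unfold cut
      refine filter_congr fun e _ => ?_
      simp only [h2]
    rw [h1, j.pq.1 l]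
  have hR : (O.filter (fun v => ¬ κ v = k)).card ≥ 9 := by
    have h1 : ((univ.erase k).image (fun l => g (r l))) ⊆ O.filter (fun v => ¬ κ v = k) := by
      intro v hv
      obtain ⟨l, hl, rfl⟩ := mem_image.1 hv
      have hlk := (mem_erase.1 hl).1
      rw [mem_filter]
      refine ⟨hout l hlk, ?_⟩
      rw [j.gk, hr]; exact hlk
    have h2 : ((univ.erase k).image (fun l => g (r l))).card = 9 := by
      rw [card_image_of_injective, card_erase_of_mem (mem_univ _), card_univ, Fintype.card_fin]
      intro l l' hl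
      have h3 := congrArg κ hl
      simp only [j.gk, hr] at h3
      exact h3
    rw [← h2]
    exact card_le_card h1
  have hsplit := card_filter_add_card_filter_not (s := O) (fun v => κ v = k)
  have hI : (O.filter (fun v => κ v = k)).card ≤ 7 := by omega
  set x0 := if κ (s e0) = k then s e0 else t e0 with hx0
  have hsub : odd (fun e => f (mrg (univ.filter (fun v => κ v ≠ k)) a0 (s e)))
      (fun e => f (mrg (univ.filter (fun v => κ v ≠ k)) a0 (t e))) (S.erase e0) ⊆
      insert (f a0) (insert (f x0) ((O.filter (fun v => κ v = k)).image f)) := by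
    intro y hy
    rw [mem_insert, mem_insert]
    by_cases hy1 : y = f a0
    · exact Or.inl hy1
    by_cases hy2 : y = f x0
    · exact Or.inr (Or.inl hy2)
    right; right
    rw [odd_iff_cut] at hy
    have hmo : ∀ w, f (mrg (univ.filter (fun v => κ v ≠ k)) a0 w) = y → κ w = k ∧ f w = y := by
      intro w hw
      by_cases hk : κ w = k
      · rw [mrg_in hk] at hw
        exact ⟨hk, hw⟩
      · rw [mrg_out hk] at hw
        exact absurd hw.symm hy1
    obtain ⟨v, hv⟩ : ∃ v, f (mrg (univ.filter (fun v => κ v ≠ k)) a0 v) = y := by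
      by_contra hc
      push Not at hc
      have h1 : cut (fun e => f (mrg (univ.filter (fun v => κ v ≠ k)) a0 (s e)))
          (fun e => f (mrg (univ.filter (fun v => κ v ≠ k)) a0 (t e))) (S.erase e0)
          (fun u => decide (u = y)) = ∅ := by
        rw [eq_empty_iff_forall_notMem]
        intro e he
        unfold cut at he
        rw [mem_filter] at he
        apply he.2
        show decide (f (mrg (univ.filter (fun v => κ v ≠ k)) a0 (s e)) = y) =
          decide (f (mrg (univ.filter (fun v => κ v ≠ k)) a0 (t e)) = y)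
        rw [decide_eq_false (hc _), decide_eq_false (hc _)]
      rw [h1] at hy
      simp at hy
    obtain ⟨hvk, hvf⟩ := hmo v hv
    refine mem_image.2 ⟨g v, ?_, by rw [j.gi v hvk, hvf]⟩
    rw [mem_filter]
    refine ⟨?_, by rw [j.gk, hvk]⟩
    rw [hO, odd_iff_cut, ← hy]
    congr 2
    have h2 : ∀ w, g w = g v ↔ f (mrg (univ.filter (fun v => κ v ≠ k)) a0 w) = y := by
      intro w
      constructor
      · intro h3
        have h4 : κ w = k := by rw [← j.gk w, h3, j.gk, hvk]
        rw [mrg_in h4, ← j.gi w h4, h3, j.gi v hvk, hvf]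
      · intro h3
        obtain ⟨h4, h5⟩ := hmo w h3
        exact j.gg w v h4 hvk (by rw [h5, hvf])
    ext e
    unfold cut
    rw [mem_filter, mem_filter, mem_erase]
    simp only [h2]
    constructor
    · rintro ⟨h3, h4⟩
      refine ⟨⟨?_, h3⟩, h4⟩
      rintro rfl
      apply h4
      have n1 : ¬ f (mrg (univ.filter (fun v => κ v ≠ k)) a0 (s e)) = y := by
        intro h5
        obtain ⟨h6, h7⟩ := hmo _ h5
        exact hy2 (by rw [hx0, if_pos h6, h7])
      have n2 : ¬ f (mrg (univ.filter (fun v => κ v ≠ k)) a0 (t e)) = y := by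
        intro h5
        obtain ⟨h6, h7⟩ := hmo _ h5
        have h8 : ¬ κ (s e) = k := fun h9 => j.he0 (by rw [h9, h6])
        exact hy2 (by rw [hx0, if_neg h8, h7])
      rw [decide_eq_false n1, decide_eq_false n2]
    · rintro ⟨⟨_, h3⟩, h4⟩
      exact ⟨h3, h4⟩
  refine (card_le_card hsub).trans ?_
  have h1 := card_insert_le (f a0) (insert (f x0) ((O.filter (fun v => κ v = k)).image f))
  have h2 := card_insert_le (f x0) ((O.filter (fun v => κ v = k)).image f)
  have h3 : ((O.filter (fun v => κ v = k)).image f).card ≤ _ := card_image_le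
  omega

theorem piece_nz (h : DD s t S) (h2 : ∀ x, (cut s t S x).card ≠ 2) (hκ : IsPQ s t S κ)
    (k : Fin 10) (he : e0 ∈ S) (he0 : κ (s e0) ≠ κ (t e0)) :
    ∃ φ : E → F, (∀ e ∈ S, e ≠ e0 → φ e ≠ 0) ∧ φ e0 = 0 ∧ ∀ v, κ v = k → Cons s t S φ v := by
  obtain ⟨a0, f, g, hf, j⟩ := exists_jnt (e0 := e0) hκ k he0
  have hn1 : N1 (fun e => mrg (univ.filter (fun v => κ v ≠ k)) a0 (s e))
      (fun e => mrg (univ.filter (fun v => κ v ≠ k)) a0 (t e)) (S.erase e0) := by
    intro x
    have h3 : cut (fun e => mrg (univ.filter (fun v => κ v ≠ k)) a0 (s e))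
        (fun e => mrg (univ.filter (fun v => κ v ≠ k)) a0 (t e)) (S.erase e0) x =
        (cut s t S (fun v => x (mrg (univ.filter (fun v => κ v ≠ k)) a0 v))).erase e0 := by
      ext e
      unfold cut
      rw [mem_filter, mem_erase, mem_erase, mem_filter, and_assoc]
    rw [h3]
    have h4 := h.n1 (fun v => x (mrg (univ.filter (fun v => κ v ≠ k)) a0 v))
    have h5 := h2 (fun v => x (mrg (univ.filter (fun v => κ v ≠ k)) a0 v))
    by_cases h6 : e0 ∈ cut s t S (fun v => x (mrg (univ.filter (fun v => κ v ≠ k)) a0 v))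
    · rw [card_erase_of_mem h6]
      omega
    · rw [erase_eq_of_notMem h6]
      exact h4
  have hn2 : N1 (fun e => f (mrg (univ.filter (fun v => κ v ≠ k)) a0 (s e)))
      (fun e => f (mrg (univ.filter (fun v => κ v ≠ k)) a0 (t e))) (S.erase e0) :=
    quot_n1 (Finset.Subset.refl _) (fun e h1 h2 => absurd h1 h2) hn1
  have ho := j.odd_le h
  have hnz : NZ (fun e => mrg (univ.filter (fun v => κ v ≠ k)) a0 (s e))
      (fun e => mrg (univ.filter (fun v => κ v ≠ k)) a0 (t e)) (S.erase e0) := by
    apply hf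
    rcases main16 _ _ _ hn2 (by omega) with h3 | h3
    · exact h3
    · have := pq_card h3
      omega
  obtain ⟨φ, p1, p2⟩ := hnz
  refine ⟨fun e => if e = e0 then 0 else φ e, fun e he1 hne => ?_, ?_, fun v hv => ?_⟩
  · beta_reduce
    rw [if_neg hne]
    exact p1 e (mem_erase.2 ⟨hne, he1⟩)
  · beta_reduce
    rw [if_pos rfl]
  · have h3 := p2 v
    unfold Cons at h3 ⊢
    rw [← add_sum_erase S _ he]
    have h4 : ((if s e0 = v then (if e0 = e0 then (0 : F) else φ e0) else 0) +
        (if t e0 = v then (if e0 = e0 then (0 : F) else φ e0) else 0)) = 0 := by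
      simp
    refine (congrArg₂ (· + ·) h4 ?_).trans (zero_add 0)
    refine Eq.trans ?_ h3
    refine sum_congr rfl fun e he1 => ?_
    have key : ∀ w, mrg (univ.filter (fun v => κ v ≠ k)) a0 w = v ↔ w = v := by
      intro w
      by_cases hw : κ w = k
      · rw [mrg_in hw]
      · rw [mrg_out hw]
        constructor
        · intro h5; exact absurd (h5 ▸ hv) j.ha0
        · intro h5; exact absurd (h5 ▸ hv) hw
    simp only [key, if_neg (mem_erase.1 he1).1]

end Q116.FF
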