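import Pool.Agent.Q116.FF.Nr2

/-!
The flow with at most one zero.
-/

set_option autoImplicit false

namespace Q116.FF

open Finset Pool.Agent.TH362.TF Pool.Agent.TH362.TF.Four Pool.Agent.TH362.TF.Str

set_option linter.unusedSectionVars false

variable {V E : Type} [Fintype V] [DecidableEq V] [DecidableEq E]
variable {s t : E → V} {S : Finset E} {κ : V → Fin 10}

def cz (m : ℕ) : F := (((m / 2 : ℕ) : ZMod 2), ((m : ℕ) : ZMod 2))

def tabz : Fin 10 → Fin 10 → ℕ :=
  ![![0,0,0,0,1,1,0,0,0,0],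
    ![0,0,1,0,0,0,1,0,0,0],
    ![0,1,0,2,0,0,0,3,0,0],
    ![0,0,2,0,3,0,0,0,1,0],
    ![1,0,0,3,0,0,0,0,0,2],
    ![1,0,0,0,0,0,0,2,3,0],
    ![0,1,0,0,0,0,0,0,2,3],
    ![0,0,3,0,0,2,0,0,0,1],
    ![0,0,0,1,0,3,2,0,0,0],
    ![0,0,0,0,2,0,3,1,0,0]]

def pz (k l : Fin 10) : F := cz (tabz k l)

theorem pz_symm : ∀ k l, pz k l = pz l k := by decide +kernel

theorem pz_sum : ∀ k, ∑ j, pz k (pnb k j) = 0 := by decide +kernel

theorem pz_zero : ∀ k j, pz k (pnb k j) = 0 ↔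
    (k = 0 ∧ pnb k j = 1) ∨ (k = 1 ∧ pnb k j = 0) := by decide +kernel

theorem match4 (a b a' b' : F) (ha : a = 0 ↔ a' = 0) (hb : b = 0 ↔ b' = 0)
    (hc : a + b = 0 ↔ a' + b' = 0) :
    ∃ σ : F →+ F, (∀ x : F, x ≠ 0 → σ x ≠ 0) ∧ σ a = a' ∧ σ b = b' := by
  by_cases h1 : a = 0
  · have h1' := ha.1 h1
    by_cases h2 : b = 0
    · have h2' := hb.1 h2
      exact ⟨AddMonoidHom.id F, fun x hx => hx, by rw [h1, h1', map_zero], by
        rw [h2, h2', map_zero]⟩
    · obtain ⟨σ, k1, k2⟩ := match1 b b' h2 (fun h => h2 (hb.2 h))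
      exact ⟨σ, k1, by rw [h1, h1', map_zero], k2⟩
  · have h1' : a' ≠ 0 := fun h => h1 (ha.2 h)
    by_cases h2 : b = 0
    · have h2' := hb.1 h2
      obtain ⟨σ, k1, k2⟩ := match1 a a' h1 h1'
      exact ⟨σ, k1, k2, by rw [h2, h2', map_zero]⟩
    · have h2' : b' ≠ 0 := fun h => h2 (hb.2 h)
      by_cases h3 : a = b
      · subst h3
        have h4 : a' = b' := by
          have h5 := hc.1 (addF a)
          exact eq_of_addF h5
        subst h4
        obtain ⟨σ, k1, k2⟩ := match1 a a' h1 h1'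
        exact ⟨σ, k1, k2, k2⟩
      · exact match2 a b a' b' h1 h2 h3 h1' h2' (fun h => h3 (eq_of_addF (hc.2 (by
          rw [h]; exact addF b'))))

theorem match3 (a b c a' b' c' : F) (h1 : a + b + c = 0) (h2 : a' + b' + c' = 0)
    (ha : a = 0 ↔ a' = 0) (hb : b = 0 ↔ b' = 0) (hc : c = 0 ↔ c' = 0) :
    ∃ σ : F →+ F, (∀ x : F, x ≠ 0 → σ x ≠ 0) ∧ σ a = a' ∧ σ b = b' ∧ σ c = c' := by
  have e1 : c = a + b := (eq_of_addF h1).symm
  have e2 : c' = a' + b' := (eq_of_addF h2).symm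
  subst e1 e2
  obtain ⟨σ, q1, q2, q3⟩ := match4 a b a' b' ha hb hc
  exact ⟨σ, q1, q2, q3, by rw [map_add, q2, q3]⟩

/-- the sum of the values at the three edges leaving a class -/
theorem sum_three (hκ : IsPQ s t S κ) (k : Fin 10) (φ : E → F)
    (h : ∀ v, κ v = k → Cons s t S φ v) (e : Fin 3 → E)
    (he : ∀ j, e j ∈ S ∧ Joins κ s t k (pnb k j) (e j)) : ∑ j, φ (e j) = 0 := by
  have hcut := cut_pq hκ k e he
  have hinj : Function.Injective e := by
    intro i j hij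
    have h3 := (he i).2
    have h4 := (he j).2
    rw [hij] at h3
    apply pnb_inj k
    have n1 := pnb_ne k i
    have n2 := pnb_ne k j
    rcases h3 with ⟨a1, a2⟩ | ⟨a1, a2⟩ <;> rcases h4 with ⟨b1, b2⟩ | ⟨b1, b2⟩
    · rw [← a2, ← b2]
    · exact absurd (b1.symm.trans a1) n2
    · exact absurd (a1.symm.trans b1) n1
    · rw [← a1, ← b1]
  have h3 : ∑ v ∈ univ.filter (fun v => κ v = k), ∑ x ∈ S,
      ((if s x = v then φ x else 0) + (if t x = v then φ x else 0)) = 0 :=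
    sum_eq_zero fun v hv => h v (mem_filter.1 hv).2
  rw [sum_comm] at h3
  have h4 : ∑ x ∈ S, ((if κ (s x) = k then φ x else 0) + (if κ (t x) = k then φ x else 0)) = 0 := by
    refine Eq.trans ?_ h3
    refine sum_congr rfl fun x _ => ?_
    rw [sum_add_distrib, sum_ite_eq, sum_ite_eq]
    simp only [mem_filter, mem_univ, true_and]
  have h5 : ∑ x ∈ cut s t S (fun v => decide (κ v = k)),
      ((if κ (s x) = k then φ x else 0) + (if κ (t x) = k then φ x else 0)) = 0 := by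
    refine Eq.trans ?_ h4
    apply sum_subset
    · exact filter_subset _ _
    · intro x hx hx'
      unfold cut at hx'
      rw [mem_filter, not_and, not_not] at hx'
      have h5 := hx' hx
      by_cases h6 : κ (s x) = k <;> by_cases h7 : κ (t x) = k <;> simp_all [addF]
  rw [hcut, sum_image (fun i _ j _ h => hinj h)] at h5
  refine Eq.trans ?_ h5
  refine sum_congr rfl fun j _ => ?_
  have n1 := pnb_ne k j
  rcases (he j).2 with ⟨a1, a2⟩ | ⟨a1, a2⟩
  · rw [if_pos a1, if_neg (show ¬ κ (t (e j)) = k by rw [a2]; exact n1), add_zero]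
  · rw [if_neg (show ¬ κ (s (e j)) = k by rw [a1]; exact n1), if_pos a2, zero_add]

theorem near (h : DD s t S) (h2 : ∀ x, (cut s t S x).card ≠ 2) :
    NZ s t S ∨ ∃ e0 ∈ S, NZ s t (S.erase e0) := by
  rcases h.or with h1 | ⟨κ, hκ⟩
  · exact Or.inl h1
  right
  obtain ⟨e0, he, hj0⟩ := hκ.2 0 1 (by decide)
  have he0 : κ (s e0) ≠ κ (t e0) := by
    rcases hj0 with ⟨a1, a2⟩ | ⟨a1, a2⟩ <;> rw [a1, a2] <;> decide
  refine ⟨e0, he, ?_⟩
  have hE : ∀ k, ∀ j : Fin 3, ∃ e, e ∈ S ∧ Joins κ s t k (pnb k j) e := by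
    intro k j
    obtain ⟨e, he, hj⟩ := hκ.2 k (pnb k j) (padj_pnb k j)
    exact ⟨e, he, hj⟩
  choose ed hed using hE
  have hp := fun k => piece_nz h h2 hκ k he he0
  choose φ p1 p2 p3 using hp
  have hzero : ∀ k j, φ k (ed k j) = 0 ↔ pz k (pnb k j) = 0 := by
    intro k j
    rw [pz_zero]
    constructor
    · intro h3
      have h4 : ed k j = e0 := by
        by_contra hc
        exact p1 k _ (hed k j).1 hc h3
      have h5 := (hed k j).2
      rw [h4] at h5
      rcases h5 with ⟨a1, a2⟩ | ⟨a1, a2⟩ <;> rcases hj0 with ⟨b1, b2⟩ | ⟨b1, b2⟩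
      · exact Or.inl ⟨a1.symm.trans b1, a2.symm.trans b2⟩
      · exact Or.inr ⟨a1.symm.trans b1, a2.symm.trans b2⟩
      · exact Or.inr ⟨a2.symm.trans b2, a1.symm.trans b1⟩
      · exact Or.inl ⟨a2.symm.trans b2, a1.symm.trans b1⟩
    · intro h3
      have h4 : ed k j = e0 := by
        rcases h3 with ⟨h3, h4⟩ | ⟨h3, h4⟩
        · refine uniq hκ (k := 0) (l := 1) (by decide) (hed k j).1 he ?_ hj0
          have h5 := (hed k j).2
          rw [h4, h3] at h5
          rw [h3]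
          exact h5
        · refine uniq hκ (k := 0) (l := 1) (by decide) (hed k j).1 he ?_ hj0
          have h5 := (hed k j).2
          rw [h4, h3] at h5
          rw [h3]
          exact Or.symm h5
      rw [h4]
      exact p2 k
  have hσ : ∀ k, ∃ σ : F →+ F, (∀ x : F, x ≠ 0 → σ x ≠ 0) ∧
      ∀ j, σ (φ k (ed k j)) = pz k (pnb k j) := by
    intro k
    have h3 := sum_three hκ k (φ k) (p3 k) (ed k) (hed k)
    have h4 := pz_sum k
    rw [Fin.sum_univ_three] at h3 h4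
    obtain ⟨σ, q1, q2, q3, q4⟩ := match3 _ _ _ _ _ _ h3 h4 (hzero k 0) (hzero k 1) (hzero k 2)
    refine ⟨σ, q1, fun j => ?_⟩
    fin_cases j
    · exact q2
    · exact q3
    · exact q4
  choose σ q1 q2 using hσ
  have hjn : ∀ e ∈ S, κ (s e) ≠ κ (t e) → ∃ j, pnb (κ (s e)) j = κ (t e) := by
    intro e he hne
    exact padj_ex _ _ (pq_join hκ hne he (Or.inl ⟨rfl, rfl⟩)).1
  have hval : ∀ e ∈ S, ∀ k j, Joins κ s t k (pnb k j) e →
      σ k (φ k e) = pz k (pnb k j) := by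
    intro e he k j hj
    rw [uniq hκ (pnb_ne k j).symm he (hed k j).1 hj (hed k j).2]
    exact q2 k j
  set Φ : E → F := fun e => if κ (s e) = κ (t e) then σ (κ (s e)) (φ (κ (s e)) e) else pz (κ (s e)) (κ (t e)) with hΦ
  have hΦ0 : Φ e0 = 0 := by
    rw [hΦ]
    beta_reduce
    rw [if_neg he0]
    rcases hj0 with ⟨a1, a2⟩ | ⟨a1, a2⟩ <;> rw [a1, a2] <;> decide
  have hcons : ∀ v, Cons s t S Φ v := by
    intro v
    have h3 := congrArg (σ (κ v)) (p3 (κ v) v rfl)
    rw [map_sum, map_zero] at h3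
    unfold Cons
    refine Eq.trans ?_ h3
    refine sum_congr rfl fun e he' => ?_
    rw [map_add]
    congr 1
    · by_cases h4 : s e = v
      · rw [if_pos h4, if_pos h4, hΦ]
        beta_reduce
        split_ifs with h5
        · rw [h4]
        · obtain ⟨j, hj⟩ := hjn e he' h5
          rw [← h4, hval e he' (κ (s e)) j (Or.inl ⟨rfl, hj.symm⟩), hj]
      · rw [if_neg h4, if_neg h4, map_zero]
    · by_cases h4 : t e = v
      · rw [if_pos h4, if_pos h4, hΦ]
        beta_reduce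
        split_ifs with h5
        · rw [h5, h4]
        · obtain ⟨j, hj⟩ := padj_ex _ _ (pq_join hκ (Ne.symm h5) he' (Or.inr ⟨rfl, rfl⟩)).1
          rw [← h4, hval e he' (κ (t e)) j (Or.inr ⟨hj.symm, rfl⟩), hj, pz_symm]
      · rw [if_neg h4, if_neg h4, map_zero]
  refine ⟨Φ, fun e he' => ?_, fun v => ?_⟩
  · obtain ⟨hne, he'⟩ := mem_erase.1 he'
    rw [hΦ]
    beta_reduce
    split_ifs with h3
    · exact q1 _ _ (p1 _ e he' hne)
    · obtain ⟨j, hj⟩ := hjn e he' h3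
      rw [← hj]
      intro h4
      rw [← hval e he' (κ (s e)) j (Or.inl ⟨rfl, hj.symm⟩)] at h4
      exact q1 _ _ (p1 _ e he' hne) h4
  · have h3 := hcons v
    unfold Cons at h3 ⊢
    rw [← add_sum_erase S _ he] at h3
    rw [hΦ0] at h3
    simpa using h3

end Q116.FF
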