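import Pool.Agent.Q116.FF.V5
import Pool.Agent.Q116.FF.Cnv
import Pool.Agent.TH505.OCDC.Decomp

/-!
Orientable five cycle double covers of simple graphs from root valued flows (the translation follows
the starting file `TH505/OW/Fin.lean`).
-/

set_option autoImplicit false

namespace Q116.FF

open Finset Pool.Agent.TH362.TF Pool.Agent.TH362.TF.Four
open Pool.Agent.TH505.OCDC (tot ind ind_pos ind_neg flow_decomp)

set_option linter.unusedSectionVars false

variable {V : Type}

/-- First end. -/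
noncomputable def sE (G : SimpleGraph V) (e : G.edgeSet) : V := (Quot.out e.1).1
/-- Second end. -/
noncomputable def tE (G : SimpleGraph V) (e : G.edgeSet) : V := (Quot.out e.1).2

theorem st_mk (G : SimpleGraph V) (e : G.edgeSet) : s(sE G e, tE G e) = e.1 := by
  unfold sE tE
  exact Quot.out_eq e.1

theorem st_adj (G : SimpleGraph V) (e : G.edgeSet) : G.Adj (sE G e) (tE G e) := by
  have h := e.2
  rw [← st_mk G e, SimpleGraph.mem_edgeSet] at h
  exact h

theorem st_eq (G : SimpleGraph V) {u v : V} (h : G.Adj u v) (e : G.edgeSet) :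
    e = ⟨s(u, v), h⟩ ↔ (sE G e = u ∧ tE G e = v) ∨ (tE G e = u ∧ sE G e = v) := by
  rw [Subtype.ext_iff, ← st_mk G e, Sym2.eq_iff]
  constructor
  · rintro (h | ⟨h1, h2⟩)
    · exact Or.inl h
    · exact Or.inr ⟨h2, h1⟩
  · rintro (h | ⟨h1, h2⟩)
    · exact Or.inl h
    · exact Or.inr ⟨h2, h1⟩

theorem cross {G : SimpleGraph V} (Z : Set V) : ∀ {a b : V} (_ : G.Walk a b), a ∈ Z → b ∉ Z →
    ∃ x y, G.Adj x y ∧ x ∈ Z ∧ y ∉ Z := by
  intro a b p
  induction p with
  | nil => intro h1 h2; exact absurd h1 h2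
  | @cons a c b h p ih =>
    intro h1 h2
    by_cases hc : c ∈ Z
    · exact ih hc h2
    · exact ⟨a, c, h, h1, hc⟩

theorem bridge_conv (G : SimpleGraph V) [Fintype V] [DecidableEq V] [Fintype G.edgeSet]
    (h : ∀ u v : V, G.Adj u v → (G.deleteEdges {s(u, v)}).Reachable u v) (Z : Finset V) :
    (univ.filter fun e => ¬ (sE G e ∈ Z ↔ tE G e ∈ Z)).card ≠ 1 := by
  intro h1
  obtain ⟨e, he⟩ := Finset.card_eq_one.1 h1
  have hmem : ∀ e', ¬ (sE G e' ∈ Z ↔ tE G e' ∈ Z) ↔ e' = e := fun e' => by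
    have h2 : e' ∈ (univ.filter fun e => ¬ (sE G e ∈ Z ↔ tE G e ∈ Z)) ↔ e' = e := by
      rw [he, mem_singleton]
    rw [mem_filter] at h2
    simpa using h2
  have h2 : ¬ (sE G e ∈ Z ↔ tE G e ∈ Z) := (hmem e).2 rfl
  have key : ∀ u v, G.Adj u v → u ∈ Z → v ∉ Z → e.1 = s(u, v) := by
    intro u v huv hu hv
    have h3 : ¬ (sE G (⟨s(u, v), huv⟩ : G.edgeSet) ∈ Z ↔
        tE G (⟨s(u, v), huv⟩ : G.edgeSet) ∈ Z) := by
      rcases (st_eq G huv ⟨s(u, v), huv⟩).1 rfl with ⟨h1, h2⟩ | ⟨h1, h2⟩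
      · rw [h1, h2]; tauto
      · rw [h1, h2]; tauto
    rw [hmem] at h3
    rw [← h3]
  obtain ⟨u, v, huv, hu, hv⟩ : ∃ u v, G.Adj u v ∧ u ∈ Z ∧ v ∉ Z := by
    by_cases hs : sE G e ∈ Z
    · exact ⟨_, _, st_adj G e, hs, fun h => h2 ⟨fun _ => h, fun _ => hs⟩⟩
    · have ht : tE G e ∈ Z := by
        by_contra h
        exact h2 ⟨fun h' => absurd h' hs, fun h' => absurd h' h⟩
      exact ⟨_, _, (st_adj G e).symm, ht, hs⟩
  obtain ⟨p⟩ := h u v huv
  obtain ⟨x, y, hxy, hx, hy⟩ := cross (Z : Set V) p hu hv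
  rw [SimpleGraph.deleteEdges_adj] at hxy
  have h4 := key u v huv hu hv
  have h5 := key x y hxy.1 hx hy
  exact hxy.2 (by rw [Set.mem_singleton_iff, ← h4, ← h5])

/-- The flow of the coordinate `i` on the pairs of vertices. -/
noncomputable def gfl [DecidableEq V] (G : SimpleGraph V) [Fintype G.edgeSet] (f : G.edgeSet → A5) (i : Fin 5)
    (u v : V) : ℤ :=
  ∑ e, f e i * ((if sE G e = u ∧ tE G e = v then 1 else 0) -
    (if tE G e = u ∧ sE G e = v then 1 else 0))

theorem five {V : Type} [Fintype V] [DecidableEq V] (G : SimpleGraph V) [Fintype G.edgeSet]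
    [DecidableEq G.edgeSet] (hf : WF W5 (sE G) (tE G) univ) :
    ∃ C : Fin 5 → List (Σ v : V, G.Walk v v), (∀ i, ∀ c ∈ C i, c.2.IsCycle) ∧
      (∀ i u v, tot (C i) u v + tot (C i) v u ≤ 1) ∧
      ∀ u v, G.Adj u v → ∑ i, tot (C i) u v = 1 := by
  obtain ⟨f, hf1, hf2⟩ := hf
  have hroot : ∀ e i, f e i = 0 ∨ f e i = 1 ∨ f e i = -1 := by
    intro e i
    obtain ⟨a, b, _, h⟩ := hf1 e (mem_univ e)
    rw [h]
    unfold rt
    split_ifs <;> simp
  have hanti : ∀ i u v, gfl G f i v u = - gfl G f i u v := by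
    intro i u v
    unfold gfl
    rw [← Finset.sum_neg_distrib]
    refine Finset.sum_congr rfl fun e _ => ?_
    simp only [and_comm]
    ring
  have hz : ∀ i u v, ¬ G.Adj u v → gfl G f i u v = 0 := by
    intro i u v h
    unfold gfl
    refine Finset.sum_eq_zero fun e _ => ?_
    rw [if_neg, if_neg]
    · ring
    · rintro ⟨h1, h2⟩
      exact h (h1 ▸ h2 ▸ (st_adj G e).symm)
    · rintro ⟨h1, h2⟩
      exact h (h1 ▸ h2 ▸ (st_adj G e))
  have hval : ∀ u v (h : G.Adj u v), (∀ i, gfl G f i u v = f ⟨s(u, v), h⟩ i) ∨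
      ∀ i, gfl G f i u v = - f ⟨s(u, v), h⟩ i := by
    intro u v h
    have hne := h.ne
    have h0 : ∀ i, gfl G f i u v = f ⟨s(u, v), h⟩ i *
        ((if sE G ⟨s(u, v), h⟩ = u ∧ tE G ⟨s(u, v), h⟩ = v then 1 else 0) -
          (if tE G ⟨s(u, v), h⟩ = u ∧ sE G ⟨s(u, v), h⟩ = v then 1 else 0)) := by
      intro i
      unfold gfl
      refine Finset.sum_eq_single_of_mem (⟨s(u, v), h⟩ : G.edgeSet) (mem_univ _) ?_
      intro e _ hne'
      have h1 := (st_eq G h e).not.1 hne'
      push Not at h1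
      rw [if_neg (fun h2 => h1.1 h2.1 h2.2), if_neg (fun h2 => h1.2 h2.1 h2.2)]
      ring
    rcases (st_eq G h ⟨s(u, v), h⟩).1 rfl with ⟨h1, h2⟩ | ⟨h1, h2⟩
    · left
      intro i
      rw [h0 i, if_pos (And.intro h1 h2), if_neg (fun h3 => hne (h1.symm.trans h3.2))]
      ring
    · right
      intro i
      rw [h0 i, if_neg (fun h3 => hne (h3.1.symm.trans h2)), if_pos (And.intro h1 h2)]
      ring
  have hcons : ∀ i u, ∑ w, gfl G f i u w = 0 := by
    intro i u
    have h1 := congrFun (hf2 u) i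
    unfold ex at h1
    rw [Finset.sum_apply] at h1
    have h2 : ∑ w, gfl G f i u w = - ∑ e : G.edgeSet, (((if tE G e = u then f e else 0) -
        (if sE G e = u then f e else 0) : A5) i) := by
      unfold gfl
      rw [Finset.sum_comm, ← sum_neg_distrib]
      refine Finset.sum_congr rfl fun e _ => ?_
      rw [← Finset.mul_sum, Finset.sum_sub_distrib, Pi.sub_apply]
      by_cases h3 : sE G e = u <;> by_cases h4 : tE G e = u <;> simp [h3, h4]
    rw [h2, h1]
    simp
  have hgv : ∀ i u v, gfl G f i u v = 0 ∨ gfl G f i u v = 1 ∨ gfl G f i u v = -1 := by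
    intro i u v
    by_cases h : G.Adj u v
    · have h1 := hroot ⟨s(u, v), h⟩ i
      rcases hval u v h with h2 | h2
      · rw [h2 i]; exact h1
      · rw [h2 i]
        rcases h1 with h1 | h1 | h1 <;> rw [h1] <;> simp
    · exact Or.inl (hz i u v h)
  have hone : ∀ u v, G.Adj u v → ∃ i, gfl G f i u v = 1 ∧ ∀ j, gfl G f j u v = 1 → j = i := by
    intro u v h
    obtain ⟨a, b, hab, hr⟩ := hf1 ⟨s(u, v), h⟩ (mem_univ _)
    rcases hval u v h with h2 | h2
    · refine ⟨a, ?_, fun j hj => ?_⟩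
      · rw [h2, hr]
        unfold rt
        rw [if_pos rfl, if_neg hab]; norm_num
      · rw [h2, hr] at hj
        unfold rt at hj
        by_contra hc
        rw [if_neg hc] at hj
        split_ifs at hj <;> norm_num at hj
    · refine ⟨b, ?_, fun j hj => ?_⟩
      · rw [h2, hr]
        unfold rt
        rw [if_pos rfl, if_neg hab.symm]; norm_num
      · rw [h2, hr] at hj
        unfold rt at hj
        by_contra hc
        rw [if_neg hc] at hj
        split_ifs at hj <;> norm_num at hj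
  have key : ∀ i, ∃ C : List (Σ v : V, G.Walk v v), (∀ c ∈ C, c.2.IsCycle) ∧
      ∀ u v, tot C u v = ind (gfl G f i u v = 1) := fun i =>
    flow_decomp (gfl G f i) (fun u v => hanti i u v) (hgv i) (fun u v hne => by
      by_contra h'
      exact hne (hz i u v h')) (hcons i)
  choose C hC1 hC2 using key
  refine ⟨C, hC1, ?_, ?_⟩
  · intro i u v
    rw [hC2, hC2, hanti i u v]
    rcases hgv i u v with h7 | h7 | h7
    · rw [h7, ind_neg (by norm_num), ind_neg (by norm_num)]; norm_num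
    · rw [h7, ind_pos rfl, ind_neg (by norm_num)]
    · rw [h7, ind_neg (by norm_num), ind_pos (by norm_num)]
  · intro u v huv
    rw [Finset.sum_congr rfl (fun i _ => hC2 i u v)]
    obtain ⟨i, hi1, hi2⟩ := hone u v huv
    rw [Finset.sum_eq_single i]
    · exact ind_pos hi1
    · intro k _ hk
      exact ind_neg (fun h' => hk (hi2 k h'))
    · intro h'; exact absurd (mem_univ _) h'

open scoped Classical in
theorem main5 {V : Type} [Fintype V] (G : SimpleGraph V)
    (h : ∀ u v : V, G.Adj u v → (G.deleteEdges {s(u, v)}).Reachable u v)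
    (hG : (∀ I : Finset V, 7 ≤ I.card → ∃ u ∈ I, ∃ v ∈ I, G.Adj u v) ∨
      (648 ≤ Fintype.card V ∧ ∀ v, Fintype.card V < 18 * (G.degree v + 1)) ∨
      (∃ C : Finset V, C.card ≤ 8 ∧ ∀ u v, G.Adj u v → u ∈ C ∨ v ∈ C) ∨
      (univ.filter (fun v => Odd (G.degree v))).card ≤ 16) :
    ∃ C : Fin 5 → List (Σ v : V, G.Walk v v), (∀ i, ∀ c ∈ C i, c.2.IsCycle) ∧
      (∀ i u v, tot (C i) u v + tot (C i) v u ≤ 1) ∧
      ∀ u v, G.Adj u v → ∑ i, tot (C i) u v = 1 := by
  refine five G (wf5 (dd_conv (n1_conv (bridge_conv G h)) ?_))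
  rcases hG with h1 | ⟨h1, h2⟩ | ⟨C, h1, h2⟩ | h1
  · left
    intro I hI
    obtain ⟨u, hu, v, hv, huv⟩ := h1 I hI
    rcases (st_eq G huv ⟨s(u, v), huv⟩).1 rfl with ⟨k1, k2⟩ | ⟨k1, k2⟩
    · exact ⟨_, by rw [k1]; exact hu, by rw [k2]; exact hv, by rw [k1, k2]; exact huv.ne⟩
    · exact ⟨_, by rw [k2]; exact hv, by rw [k1]; exact hu, by rw [k1, k2]; exact huv.ne.symm⟩
  · right; left
    refine ⟨h1, fun v => ?_⟩
    have h3 : G.neighborFinset v ⊆ univ.filter (fun u => u ≠ v ∧
        ∃ e, (sE G e = v ∧ tE G e = u) ∨ (sE G e = u ∧ tE G e = v)) := by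
      intro u hu
      rw [SimpleGraph.mem_neighborFinset] at hu
      rw [mem_filter]
      refine ⟨mem_univ _, hu.ne.symm, ⟨s(v, u), hu⟩, ?_⟩
      rcases (st_eq G hu ⟨s(v, u), hu⟩).1 rfl with ⟨k1, k2⟩ | ⟨k1, k2⟩
      · exact Or.inl ⟨k1, k2⟩
      · exact Or.inr ⟨k2, k1⟩
    have h4 := card_le_card h3
    rw [SimpleGraph.card_neighborFinset_eq_degree] at h4
    have h5 := h2 v
    omega
  · right; right; left
    exact ⟨C, h1, fun e _ => h2 _ _ (st_adj G e)⟩
  · right; right; right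
    refine le_trans (card_le_card ?_) h1
    intro v hv
    rw [mem_filter] at hv ⊢
    refine ⟨mem_univ _, ?_⟩
    have h3 : (univ.filter (fun e => sE G e = v)).card + (univ.filter (fun e => tE G e = v)).card =
        G.degree v := by
      rw [← card_union_of_disjoint]
      · rw [← SimpleGraph.card_incidenceFinset_eq_degree]
        refine card_bij (fun e _ => e.1) ?_ ?_ ?_
        · intro e he
          rw [mem_union, mem_filter, mem_filter] at he
          rw [SimpleGraph.mem_incidenceFinset]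
          refine ⟨e.2, ?_⟩
          rw [← st_mk G e, Sym2.mem_iff]
          rcases he with he | he
          · exact Or.inl he.2.symm
          · exact Or.inr he.2.symm
        · intro e _ e' _ h
          exact Subtype.ext h
        · intro e he
          rw [SimpleGraph.mem_incidenceFinset] at he
          refine ⟨⟨e, he.1⟩, ?_, rfl⟩
          have h4 : v ∈ ((⟨e, he.1⟩ : G.edgeSet) : Sym2 V) := he.2
          rw [← st_mk G ⟨e, he.1⟩, Sym2.mem_iff] at h4
          rw [mem_union, mem_filter, mem_filter]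
          rcases h4 with h4 | h4
          · exact Or.inl ⟨mem_univ _, h4.symm⟩
          · exact Or.inr ⟨mem_univ _, h4.symm⟩
      · rw [Finset.disjoint_left]
        intro e he he'
        rw [mem_filter] at he he'
        exact (st_adj G e).ne (he.2.trans he'.2.symm)
    rw [← h3]
    exact hv.2

end Q116.FF
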