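import Pool.Agent.Q116.FF.Cls
import Pool.Agent.H160R2.HF.Hoffman

/-!
Orientable five cycle double covers: flows with values in the differences of two of five unit
vectors.
-/

set_option autoImplicit false

namespace Q116.FF

open Finset Pool.Agent.TH362.TF Pool.Agent.TH362.TF.Four

set_option linter.unusedSectionVars false

abbrev A5 := Fin 5 → ℤ

/-- the difference of two unit vectors -/
def rt (i j : Fin 5) : A5 := fun k => (if k = i then 1 else 0) - (if k = j then 1 else 0)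

def W5 : Set A5 := {x | ∃ i j, i ≠ j ∧ x = rt i j}

theorem rt_neg (i j : Fin 5) : - rt i j = rt j i := by
  funext k
  unfold rt
  rw [Pi.neg_apply]
  ring

def tab5 : Fin 10 → Fin 10 → Option (Fin 5 × Fin 5) :=
  ![![none,some (0,1),none,none,some (1,2),some (2,0),none,none,none,none],
    ![some (1,0),none,some (0,2),none,none,none,some (2,1),none,none,none],
    ![none,some (2,0),none,some (0,3),none,none,none,some (3,2),none,none],
    ![none,none,some (3,0),none,some (2,3),none,none,none,some (0,2),none],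
    ![some (2,1),none,none,some (3,2),none,none,none,none,none,some (1,3)],
    ![some (0,2),none,none,none,none,none,none,some (2,4),some (4,0),none],
    ![none,some (1,2),none,none,none,none,none,none,some (2,4),some (4,1)],
    ![none,none,some (2,3),none,none,some (4,2),none,none,none,some (3,4)],
    ![none,none,none,some (2,0),none,some (0,4),some (4,2),none,none,none],
    ![none,none,none,none,some (3,1),none,some (1,4),some (4,3),none,none]]

def p5 (k l : Fin 10) : A5 := (tab5 k l).elim 0 (fun q => rt q.1 q.2)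

def c5 (j : Fin 3) : A5 :=
  match j with
  | 0 => rt 0 1
  | 1 => rt 1 2
  | 2 => rt 2 0

theorem three5' : ∀ i j k l m n : Fin 5, i ≠ j → k ≠ l → m ≠ n →
    (∀ x, rt i j x + rt k l x + rt m n x = 0) →
    ((k = j ∧ m = l ∧ n = i ∧ i ≠ l) ∨ (l = i ∧ n = k ∧ m = j ∧ k ≠ j)) := by decide +kernel

theorem three5 (i j k l m n : Fin 5) (h1 : i ≠ j) (h2 : k ≠ l) (h3 : m ≠ n)
    (h : rt i j + rt k l + rt m n = 0) :
    (k = j ∧ m = l ∧ n = i ∧ i ≠ l) ∨ (l = i ∧ n = k ∧ m = j ∧ k ≠ j) :=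
  three5' i j k l m n h1 h2 h3 (fun x => congrFun h x)

/-- an enumeration which starts with three given elements -/
def g5 (i j l : Fin 5) (k : Fin 5) : Fin 5 :=
  (([i, j, l] : List (Fin 5)) ++ (List.finRange 5).filter (fun x => decide (x ≠ i ∧ x ≠ j ∧ x ≠ l))).getD
    k.1 0

theorem g5_inj : ∀ i j l : Fin 5, i ≠ j → j ≠ l → i ≠ l →
    (∀ a b, g5 i j l a = g5 i j l b → a = b) ∧ g5 i j l 0 = i ∧ g5 i j l 1 = j ∧ g5 i j l 2 = l := by
  decide +kernel

def perm5 (g : Fin 5 ≃ Fin 5) : A5 ≃+ A5 where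
  toFun x := x ∘ g
  invFun x := x ∘ g.symm
  left_inv x := by funext i; simp
  right_inv x := by funext i; simp
  map_add' x y := rfl

theorem perm5_rt (g : Fin 5 ≃ Fin 5) (i j : Fin 5) : perm5 g (rt (g i) (g j)) = rt i j := by
  funext k
  show rt (g i) (g j) (g k) = _
  unfold rt
  simp only [EmbeddingLike.apply_eq_iff_eq]

theorem perm5_mem (g : Fin 5 ≃ Fin 5) {x : A5} (hx : x ∈ W5) : perm5 g x ∈ W5 := by
  obtain ⟨i, j, hij, rfl⟩ := hx
  refine ⟨g.symm i, g.symm j, fun h => hij (g.symm.injective h), ?_⟩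
  have := perm5_rt g (g.symm i) (g.symm j)
  rw [Equiv.apply_symm_apply, Equiv.apply_symm_apply] at this
  exact this

theorem perm5_symm (g : Fin 5 ≃ Fin 5) : (perm5 g).symm = perm5 g.symm := rfl

theorem neg5_mem {x : A5} (hx : x ∈ W5) : -x ∈ W5 := by
  obtain ⟨i, j, hij, rfl⟩ := hx
  exact ⟨j, i, hij.symm, rt_neg i j⟩

def val5 : Val A5 W5 where
  neg w h := neg5_mem h
  p := p5
  pmem := by
    have h : ∀ k j, ∃ a b : Fin 5, a ≠ b ∧ p5 k (pnb k j) = rt a b := by decide +kernel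
    exact h
  panti := by decide +kernel
  psum := by decide +kernel
  u0 := c5
  hom u hu hs := by
    rw [Fin.sum_univ_three] at hs
    obtain ⟨i, j, hij, h0⟩ := hu 0
    obtain ⟨k, l, hkl, h1⟩ := hu 1
    obtain ⟨m, n, hmn, h2⟩ := hu 2
    rw [h0, h1, h2] at hs
    rcases three5 i j k l m n hij hkl hmn hs with ⟨rfl, rfl, rfl, hne⟩ | ⟨rfl, rfl, rfl, hne⟩
    · -- `rt n k`, `rt k m`, `rt m n`
      obtain ⟨q1, q2, q3, q4⟩ := g5_inj n k m hij hkl hne
      set g := Equiv.ofBijective _ (Finite.injective_iff_bijective.1 (fun a b h => q1 a b h)) with hg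
      have e0 : g 0 = n := q2
      have e1 : g 1 = k := q3
      have e2 : g 2 = m := q4
      refine ⟨perm5 g, fun x hx => perm5_mem g hx, fun x hx => perm5_mem g.symm hx, fun j => ?_⟩
      fin_cases j
      · show perm5 g (u 0) = rt 0 1
        rw [h0, ← e0, ← e1]; exact perm5_rt g 0 1
      · show perm5 g (u 1) = rt 1 2
        rw [h1, ← e1, ← e2]; exact perm5_rt g 1 2
      · show perm5 g (u 2) = rt 2 0
        rw [h2, ← e2, ← e0]; exact perm5_rt g 2 0
    · -- `rt l m`, `rt n l`, `rt m n`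
      obtain ⟨q1, q2, q3, q4⟩ := g5_inj m l n hij.symm hkl.symm hne.symm
      set g := Equiv.ofBijective _ (Finite.injective_iff_bijective.1 (fun a b h => q1 a b h)) with hg
      have e0 : g 0 = m := q2
      have e1 : g 1 = l := q3
      have e2 : g 2 = n := q4
      have hs' : ∀ x, ((AddEquiv.neg A5).trans (perm5 g)) x = perm5 g (-x) := fun x => rfl
      refine ⟨(AddEquiv.neg A5).trans (perm5 g), fun x hx => perm5_mem g (neg5_mem hx),
        fun x hx => ?_, fun j => ?_⟩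
      · show -(perm5 g.symm x) ∈ W5
        exact neg5_mem (perm5_mem g.symm hx)
      · fin_cases j
        · show perm5 g (-(u 0)) = rt 0 1
          rw [h0, rt_neg, ← e0, ← e1]; exact perm5_rt g 0 1
        · show perm5 g (-(u 1)) = rt 1 2
          rw [h1, rt_neg, ← e1, ← e2]; exact perm5_rt g 1 2
        · show perm5 g (-(u 2)) = rt 2 0
          rw [h2, rt_neg, ← e2, ← e0]; exact perm5_rt g 2 0

/-! ### Nowhere-zero 4-flows -/

variable {V E : Type} [Fintype V] [DecidableEq V] [Fintype E] [DecidableEq E]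

open Pool.Agent.H160R2.HF (net eulerian)

theorem ex_net (s t : E → V) (S : Finset E) (ψ : E → ℤ) (h : ∀ e, e ∉ S → ψ e = 0) (v : V) :
    ex s t S ψ v = - net s t ψ v := by
  unfold ex net
  rw [sum_sub_distrib, neg_sub, sum_filter, sum_filter]
  congr 1
  · refine sum_subset (subset_univ S) fun e _ he => ?_
    rw [h e he]; simp
  · refine sum_subset (subset_univ S) fun e _ he => ?_
    rw [h e he]; simp

/-- the flow of an even subgraph -/
theorem exists_two (s t : E → V) (S : Finset E) (φ : E → F) (h2 : ∀ v, Cons s t S φ v)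
    (L : F →+ ZMod 2) : ∃ ψ : E → ℤ, (∀ e ∈ S, (L (φ e) = 1 → ψ e = 1 ∨ ψ e = -1) ∧
      (L (φ e) = 0 → ψ e = 0)) ∧ ∀ v, ex s t S ψ v = 0 := by
  have hev : ∀ v, Even (((S.filter (fun e => L (φ e) = 1)).filter (fun e => s e = v)).card +
      ((S.filter (fun e => L (φ e) = 1)).filter (fun e => t e = v)).card) := by
    intro v
    have h01 : ∀ a : ZMod 2, a = 0 ∨ a = 1 := by decide
    have key : ∀ r : E → V, ((((S.filter (fun e => L (φ e) = 1)).filter
        (fun e => r e = v)).card : ℕ) : ZMod 2) = ∑ e ∈ S, L (if r e = v then φ e else 0) := by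
      intro r
      rw [filter_filter, card_filter, Nat.cast_sum]
      refine sum_congr rfl fun e _ => ?_
      by_cases h4 : r e = v
      · rcases h01 (L (φ e)) with h5 | h5
        · rw [if_neg (fun h => by rw [h5] at h; exact absurd h.1 (by decide)), if_pos h4, h5]; simp
        · rw [if_pos ⟨h5, h4⟩, if_pos h4, h5]; simp
      · rw [if_neg (fun h => h4 h.2), if_neg h4]; simp
    rw [← ZMod.natCast_eq_zero_iff_even, Nat.cast_add, key, key, ← sum_add_distrib]
    have h3 := congrArg L (h2 v)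
    rw [map_sum, map_zero] at h3
    rw [← h3]
    exact sum_congr rfl fun e _ => (map_add L _ _).symm
  obtain ⟨ψ, h3, h4⟩ := eulerian s t _ hev
  refine ⟨ψ, fun e he => ⟨fun h5 => (h3 e).1 (mem_filter.2 ⟨he, h5⟩), fun h5 => (h3 e).2 ?_⟩,
    fun v => ?_⟩
  · rw [mem_filter, h5]
    rintro ⟨_, h6⟩
    exact absurd h6 (by decide)
  · rw [ex_net s t S ψ _ v, h4, neg_zero]
    intro e he
    exact (h3 e).2 (fun h5 => he (mem_filter.1 h5).1)

/-- the root with given coordinates of the three 2-flows -/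
def mk5 (a b c : ℤ) : A5 := fun k =>
  match k with
  | 0 => -(a + b + c) / 2
  | 1 => (a + c - b) / 2
  | 2 => (b + c - a) / 2
  | 3 => (a + b - c) / 2
  | 4 => 0

def lin5 (k : Fin 5) (a b c : ℤ) : ℤ :=
  match k with
  | 0 => -(a + b + c)
  | 1 => (a + c - b)
  | 2 => (b + c - a)
  | 3 => (a + b - c)
  | 4 => 0

theorem mk5_cases (a b c : ℤ) (h : ((a = 1 ∨ a = -1) ∧ (b = 1 ∨ b = -1) ∧ c = 0) ∨
    ((a = 1 ∨ a = -1) ∧ b = 0 ∧ (c = 1 ∨ c = -1)) ∨
    (a = 0 ∧ (b = 1 ∨ b = -1) ∧ (c = 1 ∨ c = -1))) :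
    mk5 a b c ∈ W5 ∧ ∀ k, 2 * mk5 a b c k = lin5 k a b c := by
  rcases h with ⟨rfl | rfl, rfl | rfl, rfl⟩ | ⟨rfl | rfl, rfl, rfl | rfl⟩ | ⟨rfl, rfl | rfl, rfl | rfl⟩ <;>
  · refine ⟨?_, by decide +kernel⟩
    show ∃ i j : Fin 5, i ≠ j ∧ _ = rt i j
    decide +kernel

theorem lin5_sub (k : Fin 5) (a b c a' b' c' : ℤ) :
    lin5 k (a - a') (b - b') (c - c') = lin5 k a b c - lin5 k a' b' c' := by
  fin_cases k <;> simp only [lin5] <;> ring

theorem nz5 (s t : E → V) (S : Finset E) (h : NZ s t S) : WF W5 s t S := by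
  obtain ⟨φ, h1, h2⟩ := h
  obtain ⟨a, ha, ha0⟩ := exists_two s t S φ h2 (AddMonoidHom.fst (ZMod 2) (ZMod 2))
  obtain ⟨b, hb, hb0⟩ := exists_two s t S φ h2 (AddMonoidHom.snd (ZMod 2) (ZMod 2))
  obtain ⟨c, hc, hc0⟩ := exists_two s t S φ h2
    (AddMonoidHom.fst (ZMod 2) (ZMod 2) + AddMonoidHom.snd (ZMod 2) (ZMod 2))
  have hcase : ∀ e ∈ S, ((a e = 1 ∨ a e = -1) ∧ (b e = 1 ∨ b e = -1) ∧ c e = 0) ∨
      ((a e = 1 ∨ a e = -1) ∧ b e = 0 ∧ (c e = 1 ∨ c e = -1)) ∨
      (a e = 0 ∧ (b e = 1 ∨ b e = -1) ∧ (c e = 1 ∨ c e = -1)) := by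
    intro e he
    have hF : ∀ x : F, x ≠ 0 → (x.1 = 1 ∧ x.2 = 1 ∧ x.1 + x.2 = 0) ∨
        (x.1 = 1 ∧ x.2 = 0 ∧ x.1 + x.2 = 1) ∨ (x.1 = 0 ∧ x.2 = 1 ∧ x.1 + x.2 = 1) := by decide
    rcases hF (φ e) (h1 e he) with ⟨k1, k2, k3⟩ | ⟨k1, k2, k3⟩ | ⟨k1, k2, k3⟩
    · exact Or.inl ⟨(ha e he).1 k1, (hb e he).1 k2, (hc e he).2 k3⟩
    · exact Or.inr (Or.inl ⟨(ha e he).1 k1, (hb e he).2 k2, (hc e he).1 k3⟩)
    · exact Or.inr (Or.inr ⟨(ha e he).2 k1, (hb e he).1 k2, (hc e he).1 k3⟩)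
  refine ⟨fun e => mk5 (a e) (b e) (c e), fun e he => (mk5_cases _ _ _ (hcase e he)).1, fun v => ?_⟩
  funext k
  have h3 : 2 * (ex s t S (fun e => mk5 (a e) (b e) (c e)) v k) =
      lin5 k (ex s t S a v) (ex s t S b v) (ex s t S c v) := by
    have hlin : ∀ (T : Finset E) (x y z : E → ℤ), lin5 k (∑ e ∈ T, x e) (∑ e ∈ T, y e)
        (∑ e ∈ T, z e) = ∑ e ∈ T, lin5 k (x e) (y e) (z e) := by
      intro T x y z
      induction T using Finset.induction_on with
      | empty => fin_cases k <;> simp [lin5]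
      | insert e T he ih =>
        rw [sum_insert he, sum_insert he, sum_insert he, sum_insert he, ← ih]
        fin_cases k <;> simp only [lin5] <;> ring
    unfold ex
    rw [hlin, Finset.sum_apply, mul_sum]
    refine sum_congr rfl fun e he => ?_
    rw [lin5_sub, Pi.sub_apply, mul_sub]
    have h4 := (mk5_cases _ _ _ (hcase e he)).2 k
    have h0 : lin5 k 0 0 0 = 0 := by fin_cases k <;> simp [lin5]
    congr 1
    · by_cases h5 : t e = v
      · simp only [if_pos h5]; exact h4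
      · simp only [if_neg h5]; rw [h0]; simp
    · by_cases h5 : s e = v
      · simp only [if_pos h5]; exact h4
      · simp only [if_neg h5]; rw [h0]; simp
  rw [ha0, hb0, hc0] at h3
  have h0 : lin5 k 0 0 0 = 0 := by fin_cases k <;> simp [lin5]
  rw [h0] at h3
  show ex s t S (fun e => mk5 (a e) (b e) (c e)) v k = 0
  omega

theorem wf5 {s t : E → V} {S : Finset E} (h : DD s t S) : WF W5 s t S :=
  wf_of_dd val5 nz5 s t S h

end Q116.FF
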