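import Pool.Agent.Q116.FF.Cls

/-!
Quadruple covers by six even subgraphs: the values of weight four in the space of dimension six
over the field with two elements.
-/

set_option autoImplicit false

namespace Q116.FF

open Finset Pool.Agent.TH362.TF Pool.Agent.TH362.TF.Four

set_option linter.unusedSectionVars false

abbrev A6 := Fin 6 → ZMod 2

def wt (x : A6) : ℕ := ∑ i, if x i = 0 then 0 else 1

def W6 : Set A6 := {x | wt x = 4}

def bit6 (n : ℕ) : A6 := fun i => if n.testBit i then 1 else 0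

def tab6 : Fin 10 → Fin 10 → ℕ :=
  ![![0,60,0,0,51,15,0,0,0,0],
    ![60,0,43,0,0,0,23,0,0,0],
    ![0,43,0,54,0,0,0,29,0,0],
    ![0,0,54,0,45,0,0,0,27,0],
    ![51,0,0,45,0,0,0,0,0,30],
    ![15,0,0,0,0,0,0,58,53,0],
    ![0,23,0,0,0,0,0,0,46,57],
    ![0,0,29,0,0,58,0,0,0,39],
    ![0,0,0,27,0,53,46,0,0,0],
    ![0,0,0,0,30,0,57,39,0,0]]

def p6 (k l : Fin 10) : A6 := bit6 (tab6 k l)

def c6 (j : Fin 3) : A6 :=
  match j with
  | 0 => ![0, 0, 1, 1, 1, 1]
  | 1 => ![1, 1, 0, 0, 1, 1]
  | 2 => ![1, 1, 1, 1, 0, 0]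

/-- the list of the zeros -/
def zs (x : A6) : List (Fin 6) := (List.finRange 6).filter (fun i => decide (x i = 0))

def g6 (a b : A6) (i : Fin 6) : Fin 6 := (zs a ++ zs b ++ zs (a + b)).getD i.1 0

theorem key6 : ∀ a b : A6, wt a = 4 → wt b = 4 → wt (a + b) = 4 →
    (∀ i j, g6 a b i = g6 a b j → i = j) ∧
      ∀ i, a (g6 a b i) = c6 0 i ∧ b (g6 a b i) = c6 1 i := by decide +kernel

theorem wt_comp (g : Fin 6 ≃ Fin 6) (x : A6) : wt (x ∘ g) = wt x := by
  unfold wt
  exact Equiv.sum_comp g (fun i => if x i = 0 then 0 else 1)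

def perm6 (g : Fin 6 ≃ Fin 6) : A6 ≃+ A6 where
  toFun x := x ∘ g
  invFun x := x ∘ g.symm
  left_inv x := by funext i; simp
  right_inv x := by funext i; simp
  map_add' x y := rfl

theorem neg6 (x : A6) : -x = x := by
  funext i
  exact ZMod.neg_eq_self_mod_two (x i)

def val6 : Val A6 W6 where
  neg w h := by rw [neg6]; exact h
  p := p6
  pmem := by
    have h : ∀ k j, wt (p6 k (pnb k j)) = 4 := by decide +kernel
    exact h
  panti := by decide +kernel
  psum := by decide +kernel
  u0 := c6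
  hom u hu hs := by
    rw [Fin.sum_univ_three] at hs
    have h2 : u 2 = u 0 + u 1 := by
      have h3 := eq_neg_of_add_eq_zero_right hs
      rw [neg6] at h3
      exact h3
    have h0 : wt (u 0) = 4 := hu 0
    have h1 : wt (u 1) = 4 := hu 1
    have h3 : wt (u 0 + u 1) = 4 := by rw [← h2]; exact hu 2
    obtain ⟨k1, k2⟩ := key6 (u 0) (u 1) h0 h1 h3
    have hb : Function.Bijective (g6 (u 0) (u 1)) :=
      Finite.injective_iff_bijective.1 (fun i j h => k1 i j h)
    refine ⟨perm6 (Equiv.ofBijective _ hb), fun x hx => ?_, fun x hx => ?_, fun j => ?_⟩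
    · show wt (x ∘ _) = 4
      rw [wt_comp]; exact hx
    · show wt (x ∘ _) = 4
      rw [wt_comp]; exact hx
    · have e0 : perm6 (Equiv.ofBijective _ hb) (u 0) = c6 0 := by
        funext i; exact (k2 i).1
      have e1 : perm6 (Equiv.ofBijective _ hb) (u 1) = c6 1 := by
        funext i; exact (k2 i).2
      fin_cases j
      · exact e0
      · exact e1
      · show perm6 (Equiv.ofBijective _ hb) (u 2) = c6 2
        rw [h2, map_add, e0, e1]
        decide

/-- the embedding of the group of order four -/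
def L6 : F →+ A6 where
  toFun x := ![x.1, x.2, x.1 + x.2, x.1, x.2, x.1 + x.2]
  map_zero' := by decide
  map_add' := by decide

theorem L6_wt : ∀ x : F, x ≠ 0 → wt (L6 x) = 4 := by decide

variable {V E : Type} [Fintype V] [DecidableEq V] [DecidableEq E]

theorem nz6 (s t : E → V) (S : Finset E) (h : NZ s t S) : WF W6 s t S := by
  obtain ⟨φ, h1, h2⟩ := h
  refine ⟨fun e => L6 (φ e), fun e he => L6_wt _ (h1 e he), fun v => ?_⟩
  have h3 := congrArg L6 (h2 v)
  rw [map_sum, map_zero] at h3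
  rw [← h3]
  unfold ex
  refine sum_congr rfl fun e _ => ?_
  rw [map_add, sub_eq_add_neg, neg6, add_comm]
  congr 1
  · split_ifs <;> simp
  · split_ifs <;> simp

theorem wf6 {s t : E → V} {S : Finset E} (h : DD s t S) : WF W6 s t S :=
  wf_of_dd val6 nz6 s t S h

end Q116.FF
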